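import Pool.Agent.Helper60.CS.Zo
import Pool.Agent.Helper82.TP.Base

/-! ZOOM OVER A BASE TO A DEPTH: the space `S.chg V r` (base `V`, depth `r n`): functions, events, extensions and
back. Every statement about extensions of the zoom is a statement about extensions of the space. -/

set_option autoImplicit false

namespace Pool.Agent.Helper8.PLK

open Finset Filter Topology Pool.Agent.Helper69.RK Pool.Agent.Helper40.EL Pool.Agent.Helper31.EC
  Pool.Agent.Helper82.TP Pool.Agent.Helper60.CS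

noncomputable section

open Sp QS

variable {S : Sp}

section fun_

variable (Z : ∀ k, Setoid (S.F k).Ω) (r : ℝ) (hr : 0 < r)

theorem sub_of_chg {K : ℕ → ℝ} (hK : (S.chg Z r hr).Sub K) : S.Sub K := by
  refine ⟨hK.1, ?_⟩
  have h1 := hK.2.const_mul r
  rw [mul_zero] at h1
  refine h1.congr fun k => ?_
  show r * (Real.logb 2 (K k + 2) / (r * (S.F k).n)) = Real.logb 2 (K k + 2) / (S.F k).n
  have := (S.F k).pos
  field_simp

theorem trz_ag {s : ℝ} {f g : TR S} : TR.Ag s (trc Z r hr f) (trc Z r hr g) ↔ TR.Ag (r * s) f g := by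
  constructor
  · rintro ⟨E, K, hE, hK, hh⟩
    refine ⟨E, K, hE, sub_of_chg Z r hr hK, ?_⟩
    filter_upwards [hh] with k hk ω a b
    have h1 := hk ω a b
    rw [chg_dl] at h1
    exact h1
  · rintro ⟨E, K, hE, hK, hh⟩
    refine ⟨E, K, hE, chg_sub Z r hr hK, ?_⟩
    filter_upwards [hh] with k hk ω a b
    rw [chg_dl]
    exact hk ω a b

theorem trz_surj (f : TR (S.chg Z r hr)) : ∃ g : TR S, trc Z r hr g = f := by
  refine ⟨⟨f.1, ?_⟩, rfl⟩
  obtain ⟨K, hK, h⟩ := f.2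
  exact ⟨K, sub_of_chg Z r hr hK, h⟩

/-- truncation of functions, over the new base -/
def qz (h1 : r ≤ 1) : QS S →+* QS (S.chg Z r hr) :=
  Ideal.Quotient.lift (TR.Idl S) ((QS.mk (S := S.chg Z r hr)).comp (trc Z r hr)) (by
    intro f hf
    have h2 : TR.Ag 1 f 0 := hf
    have h3 : TR.Ag (r * 1) f 0 := h2.anti (by rw [mul_one]; exact h1)
    have h4 := (trz_ag Z r hr).mpr h3
    rw [map_zero] at h4
    show QS.mk (trc Z r hr f) = 0
    rw [← map_zero QS.mk]
    exact QS.mk_eq.mpr h4)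

theorem qz_mk (h1 : r ≤ 1) (f : TR S) : qz Z r hr h1 (QS.mk f) = QS.mk (trc Z r hr f) := rfl

theorem qz_surj (h1 : r ≤ 1) (g : QS (S.chg Z r hr)) : ∃ f : QS S, qz Z r hr h1 f = g := by
  obtain ⟨g, rfl⟩ := QS.mk_surj g
  obtain ⟨f, rfl⟩ := trz_surj Z r hr g
  exact ⟨QS.mk f, rfl⟩

theorem qz_eq_zero (h1 : r ≤ 1) {f : QS S} : qz Z r hr h1 f = 0 ↔ f ∈ QS.Id S r := by
  obtain ⟨f, rfl⟩ := QS.mk_surj f
  rw [qz_mk, QS.mk_mem_Id h1, ← map_zero QS.mk, ← map_zero (trc Z r hr), QS.mk_eq, trz_ag, mul_one]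

theorem qz_dg (h1 : r ≤ 1) (f : QS S) {s : ℝ} (hs : s ≤ 1) :
    QS.dg (qz Z r hr h1 f) s = chgL Z r hr (QS.dg f (r * s)) := by
  obtain ⟨f, rfl⟩ := QS.mk_surj f
  have hcr : r * s ≤ 1 := by
    calc r * s ≤ r * 1 := mul_le_mul_of_nonneg_left hs hr.le
      _ ≤ 1 := by rw [mul_one]; exact h1
  rw [qz_mk, QS.dg_mk _ hs, QS.dg_mk _ hcr, trc_dg]

end fun_

open Classical in
/-- number of values of a function with two components -/
theorem nvf_chain {Ω α β γ δ ε : Type} [Fintype Ω] (μ : Ω → ℝ) (F : Ω → δ) (a : δ → α) (b : δ → β) (g : Ω → γ)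
    (g2 : Ω → ε) (ω : Ω) (hab : ∀ x y, a x = a y → b x = b y → x = y)
    (hg : ∀ ω ω', b (F ω) = b (F ω') → g ω = g ω' → g2 ω = g2 ω') (B : ℝ)
    (hB : ∀ ω', μ ω' ≠ 0 → g ω' = g ω → (nvf μ (fun ω => a (F ω)) g2 ω' : ℝ) ≤ B) :
    (nvf μ F g ω : ℝ) ≤ (nvf μ (fun ω => b (F ω)) g ω : ℝ) * B := by
  unfold nvf at hB ⊢
  have h6 : (((univ : Finset Ω).filter (fun ω' => μ ω' ≠ 0 ∧ g ω' = g ω)).image F).card =
      ∑ v ∈ ((univ : Finset Ω).filter (fun ω' => μ ω' ≠ 0 ∧ g ω' = g ω)).image (fun ω => b (F ω)),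
        ((((univ : Finset Ω).filter (fun ω' => μ ω' ≠ 0 ∧ g ω' = g ω)).image F).filter
          (fun q => b q = v)).card := by
    apply Finset.card_eq_sum_card_fiberwise
    intro q hq
    rw [Finset.mem_coe, Finset.mem_image] at hq
    obtain ⟨ω', hω', rfl⟩ := hq
    rw [Finset.mem_coe]
    exact Finset.mem_image.mpr ⟨ω', hω', rfl⟩
  rw [h6, Nat.cast_sum, ← nsmul_eq_mul, ← Finset.sum_const]
  apply Finset.sum_le_sum
  intro v hv
  rw [Finset.mem_image] at hv
  obtain ⟨ω₁, hω₁, rfl⟩ := hv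
  rw [Finset.mem_filter] at hω₁
  refine le_trans ?_ (hB ω₁ hω₁.2.1 hω₁.2.2)
  rw [Nat.cast_le]
  apply Finset.card_le_card_of_injOn a
  · intro q hq
    rw [Finset.mem_coe, Finset.mem_filter, Finset.mem_image] at hq
    obtain ⟨⟨ω', hω', rfl⟩, hq2⟩ := hq
    rw [Finset.mem_filter] at hω'
    rw [Finset.mem_coe, Finset.mem_image]
    refine ⟨ω', ?_, rfl⟩
    rw [Finset.mem_filter]
    exact ⟨Finset.mem_univ _, hω'.2.1, hg _ _ hq2 (hω'.2.2.trans hω₁.2.2.symm)⟩
  · intro q hq q' hq' e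
    rw [Finset.mem_coe, Finset.mem_filter] at hq hq'
    exact hab _ _ e (hq.2.trans hq'.2.symm)

/-- the pair of an information of the zoom and of the base -/
theorem VB_of_chg (V : S.Inf) (r : ℝ) (hr : 0 < r) (A : (S.chg V.1 r hr).Inf) :
    S.VB (fun k => A.1 k ⊓ V.1 k) := by
  obtain ⟨C, hC⟩ := V.2
  obtain ⟨D, hD⟩ := A.2
  refine ⟨C + D * r, ?_⟩
  filter_upwards [hC, hD] with k hk hk' ω hω
  have h5 : (2 : ℝ) ^ ((C + D * r) * (S.F k).n) = 2 ^ (C * (S.F k).n) * 2 ^ (D * (r * (S.F k).n)) := by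
    rw [← Real.rpow_add (by norm_num : (0 : ℝ) < 2)]
    congr 1; ring
  rw [h5]
  have h1 : nv (S.F k) (A.1 k ⊓ V.1 k) ω ≤
      nvf (S.F k).μ (fun ω => (Quotient.mk (A.1 k) ω, Quotient.mk (V.1 k) ω)) (Quotient.mk (S.F k).Z) ω := by
    apply nvf_mono
    intro ω₁ ω₂ _ _ _ _ e
    rw [Prod.mk.injEq] at e
    have h2 : (A.1 k ⊓ V.1 k) ω₁ ω₂ := ⟨Quotient.exact e.1, Quotient.exact e.2⟩
    exact Quotient.sound h2
  have h2 := nvf_chain (S.F k).μ (fun ω => (Quotient.mk (A.1 k) ω, Quotient.mk (V.1 k) ω)) Prod.fst Prod.snd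
    (Quotient.mk (S.F k).Z) (Quotient.mk (V.1 k ⊓ (S.F k).Z)) ω (fun _ _ e e' => Prod.ext e e')
    (fun ω₁ ω₂ e e' => by
      have h3 : (V.1 k ⊓ (S.F k).Z) ω₁ ω₂ := ⟨Quotient.exact e, Quotient.exact e'⟩
      exact Quotient.sound h3)
    (2 ^ (D * (r * (S.F k).n))) (fun ω' a _ => hk' ω' a)
  have h3 : (nv (S.F k) (A.1 k ⊓ V.1 k) ω : ℝ) ≤ _ := (Nat.cast_le (α := ℝ)).mpr h1
  refine (h3.trans h2).trans (mul_le_mul_of_nonneg_right (hk ω hω) (by positivity))

/-- the information of the space for an information of the zoom -/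
def upI (V : S.Inf) (r : ℝ) (hr : 0 < r) (A : (S.chg V.1 r hr).Inf) : S.Inf := ⟨_, VB_of_chg V r hr A⟩

theorem chgI_upI (V : S.Inf) (r : ℝ) (hr : 0 < r) (A : (S.chg V.1 r hr).Inf) :
    cl (chgI V.1 r hr (upI V r hr A)) = cl A := by
  apply le_antisymm
  · rw [cl_le, Inf.le_def]
    have h1 : (S.chg V.1 r hr).rt (chgI V.1 r hr (upI V r hr A)).1 A.1 = fun _ => 0 := by
      funext k
      have h2 := chg_rt V.1 r hr (fun k => A.1 k ⊓ V.1 k) A.1 k
      refine h2.trans ?_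
      rw [rt_zero _ _ k le_rfl, zero_div]
    rw [h1]
    exact tendsto_const_nhds
  · rw [cl_le]
    exact Inf.le_of_le _ _ (Eventually.of_forall fun k => inf_le_left)

/-- informations of the zoom come from informations above the base -/
theorem chgL_surj (V : S.Inf) (r : ℝ) (hr : 0 < r) (x : (S.chg V.1 r hr).L) :
    ∃ y : S.L, chgL V.1 r hr y = x ∧ cl V ≤ y := by
  induction x using cl_ind with | _ A
  refine ⟨cl (upI V r hr A), chgI_upI V r hr A, ?_⟩
  rw [cl_le]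
  exact Inf.le_of_le _ _ (Eventually.of_forall fun k => inf_le_right)

/-! ### events -/

section rest

variable (V : S.Inf) (r : ℝ) (hr : 0 < r) (E : ∀ k, (S.F k).Ω → Prop)

theorem rest_chg : (S.chg V.1 r hr).rest E = (S.rest E).chg (restI E V).1 r hr := rfl

theorem restL_chg (hE : 0 < ul (S.pr E)) (x : S.L) :
    restL (S := S.chg V.1 r hr) E hE (chgL V.1 r hr x) =
      chgL (S := S.rest E) (restI E V).1 r hr (restL E hE x) := by
  induction x using cl_ind
  rfl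

theorem rest_qz (hE : 0 < ul (S.pr E)) (h1 : r ≤ 1) (f : QS S) :
    QS.rest (S := S.chg V.1 r hr) E hE (qz V.1 r hr h1 f) =
      qz (S := S.rest E) (restI E V).1 r hr h1 (QS.rest E hE f) := by
  obtain ⟨f, rfl⟩ := QS.mk_surj f
  rfl

end rest

/-! ### extensions -/

/-- the zoom of an extension -/
def pz {T S : Sp} (p : Pj T S) (V : S.Inf) (r : ℝ) (hr : 0 < r) :
    Pj (T.chg (p.mapI V).1 r hr) (S.chg V.1 r hr) where
  π := p.π
  law := p.law
  hZ := fun k ω ω' a b => and_congr Iff.rfl (p.hZ k ω ω' a b)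
  hn := fun k => by
    show r * (T.F k).n = r * (S.F k).n
    rw [p.hn k]

theorem pz_map {T S : Sp} (p : Pj T S) (V : S.Inf) (r : ℝ) (hr : 0 < r) (x : S.L) :
    (pz p V r hr).map (chgL V.1 r hr x) = chgL (p.mapI V).1 r hr (p.map x) := by
  induction x using cl_ind
  rfl

theorem pz_qz {T S : Sp} (p : Pj T S) (V : S.Inf) (r : ℝ) (hr : 0 < r) (h1 : r ≤ 1) (f : QS S) :
    (pz p V r hr).qs (qz V.1 r hr h1 f) = qz (p.mapI V).1 r hr h1 (p.qs f) := by
  obtain ⟨f, rfl⟩ := QS.mk_surj f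
  rfl

section un

variable {W : Sp} {V : S.Inf} {r : ℝ} {hr : 0 < r} (p : Pj W (S.chg V.1 r hr))

/-- an extension of the zoom as an extension of the space -/
def unz : Sp where
  F := fun k => { W.F k with
    Z := Setoid.comap (p.π k) (S.F k).Z
    n := (W.F k).n / r
    pos := div_pos (W.F k).pos hr }
  lim := W.lim.atTop_div_const hr

def puz : Pj (unz p) S where
  π := p.π
  law := p.law
  hZ := fun k ω ω' _ _ => Iff.rfl
  hn := fun k => by
    show (W.F k).n / r = (S.F k).n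
    rw [p.hn k]
    show r * (S.F k).n / r = _
    rw [mul_div_cancel_left₀ _ hr.ne']

/-- the same event -/
def evz (E : ∀ k, (W.F k).Ω → Prop) : ∀ k, ((unz p).F k).Ω → Prop := E

theorem evz_pos {E : ∀ k, (W.F k).Ω → Prop} (hE : 0 < ul (W.pr E)) : 0 < ul ((unz p).pr (evz p E)) := hE

/-- the base of the zoom on the event -/
def bsz (E : ∀ k, (W.F k).Ω → Prop) : ((unz p).rest (evz p E)).Inf := restI (evz p E) ((puz p).mapI V)

theorem cl_bsz {E : ∀ k, (W.F k).Ω → Prop} (hE : 0 < ul (W.pr E)) :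
    cl (bsz p E) = restL (evz p E) (evz_pos p hE) ((puz p).map (cl V)) := rfl

/-- the zoom of this extension is an extension of `W` (by the identity) -/
def juz (E : ∀ k, (W.F k).Ω → Prop) :
    Pj (((unz p).rest (evz p E)).chg (bsz p E).1 r hr) (W.rest E) where
  π := fun _ ω => ω
  law := fun k => (Pj.id (W.rest E)).law k
  hZ := fun k ω ω' a b => by
    have a' := ((W.F k).rest_supp (E k) ω a).1
    have b' := ((W.F k).rest_supp (E k) ω' b).1
    exact (p.hZ k ω ω' a' b').symm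
  hn := fun k => by
    show r * ((W.F k).n / r) = (W.F k).n
    rw [mul_div_cancel₀ _ hr.ne']

variable {E : ∀ k, (W.F k).Ω → Prop} (hE : 0 < ul (W.pr E))

theorem juz_map (x : S.L) :
    (juz p E).map (restL E hE (p.map (chgL V.1 r hr x))) =
      chgL (bsz p E).1 r hr (restL (evz p E) (evz_pos p hE) ((puz p).map x)) := by
  induction x using cl_ind
  rfl

theorem juz_qz (h1 : r ≤ 1) (f : QS S) :
    (juz p E).qs (QS.rest E hE (p.qs (qz V.1 r hr h1 f))) =
      qz (bsz p E).1 r hr h1 (QS.rest (evz p E) (evz_pos p hE) ((puz p).qs f)) := by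
  obtain ⟨f, rfl⟩ := QS.mk_surj f
  rfl

/-- entropies on events of extensions of the zoom -/
theorem h_juz (x y : S.L) :
    h (restL E hE (p.map (chgL V.1 r hr x))) (restL E hE (p.map (chgL V.1 r hr y))) =
      h (restL (evz p E) (evz_pos p hE) ((puz p).map x))
        (restL (evz p E) (evz_pos p hE) ((puz p).map (y ⊔ cl V))) / r := by
  rw [← (juz p E).h_map, juz_map, juz_map, h_chgL_inf, Pj.map_sup, restL_sup, cl_bsz p hE]

end un

end

end Pool.Agent.Helper8.PLK
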