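import Pool.Agent.Helper31.EC.RobS

/-! EXHAUSTION: if every event of positive probability contains one on which `A ≤ B`, then `A ≤ B`. -/

set_option autoImplicit false

namespace Pool.Agent.Helper8.PLK

open Finset Filter Topology Pool.Agent.Helper69.RK Pool.Agent.Helper31.EC

noncomputable section

open Sp

section fin

variable {Ω α γ : Type} [Fintype Ω]

open Classical in
/-- double counting of the cells of `F` -/
theorem cell_sum (ν μ ψ : Ω → ℝ) (F : Ω → γ) (hν : ∀ ω, 0 ≤ ν ω) (hμ : ∀ ω, 0 ≤ μ ω) (hψ : ∀ ω, 0 ≤ ψ ω) :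
    ∑ ω, ν ω / Pool.Agent.Helper69.RK.pr ν F ω * (∑ ω' : Ω, if F ω' = F ω then μ ω' * ψ ω' else 0) ≤ ∑ ω', μ ω' * ψ ω' := by
  have h1 : ∑ ω, ν ω / Pool.Agent.Helper69.RK.pr ν F ω * (∑ ω' : Ω, if F ω' = F ω then μ ω' * ψ ω' else 0) =
      ∑ ω', μ ω' * ψ ω' * ∑ ω ∈ (univ : Finset Ω).filter (fun ω => F ω' = F ω), ν ω / Pool.Agent.Helper69.RK.pr ν F ω := by
    simp_rw [Finset.mul_sum, Finset.sum_filter]
    rw [Finset.sum_comm]
    apply Finset.sum_congr rfl
    intro ω' _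
    apply Finset.sum_congr rfl
    intro ω _
    split_ifs <;> ring
  rw [h1]
  apply Finset.sum_le_sum
  intro ω' _
  have h2 : ∑ ω ∈ (univ : Finset Ω).filter (fun ω => F ω' = F ω), ν ω / Pool.Agent.Helper69.RK.pr ν F ω ≤ 1 := by
    apply e1_sum_div_le ν F hν
    intro a ha b hb
    rw [Finset.mem_filter] at ha hb
    exact ha.2.symm.trans hb.2
  calc _ ≤ μ ω' * ψ ω' * 1 := mul_le_mul_of_nonneg_left h2 (mul_nonneg (hμ _) (hψ _))
    _ = _ := mul_one _

/-- pointwise information density -/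
def den (μ : Ω → ℝ) (f : Ω → α) (g : Ω → γ) (ω : Ω) : ℝ :=
  Real.logb 2 (Pool.Agent.Helper69.RK.pr μ g ω) - Real.logb 2 (Pool.Agent.Helper69.RK.pr μ (fun ω' => (f ω', g ω')) ω)

theorem den_nonneg (μ : Ω → ℝ) (f : Ω → α) (g : Ω → γ) (hμ : ∀ ω, 0 ≤ μ ω) (ω : Ω) (h : μ ω ≠ 0) : 0 ≤ den μ f g ω := by
  unfold den
  apply sub_nonneg.mpr
  refine Real.logb_le_logb_of_le (by norm_num) (e1_pr_pos μ _ hμ ω h) ?_
  exact e1_pr_mono μ _ _ hμ ω (fun ω' _ h => (Prod.ext_iff.1 h).2)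

open Classical in
/-- relative entropies of cells are nonnegative -/
theorem kl_cell (ν μ : Ω → ℝ) (g : Ω → γ) (hν : ∀ ω, 0 ≤ ν ω) (hμ : ∀ ω, 0 ≤ μ ω) (h1 : ∑ ω, μ ω ≤ ∑ ω, ν ω)
    (hs : ∀ ω, ν ω ≠ 0 → μ ω ≠ 0) :
    ∑ ω, ν ω * (Real.logb 2 (Pool.Agent.Helper69.RK.pr μ g ω) - Real.logb 2 (Pool.Agent.Helper69.RK.pr ν g ω)) ≤ 0 := by
  have h2 : ∀ ω, ν ω * (Real.logb 2 (Pool.Agent.Helper69.RK.pr μ g ω) - Real.logb 2 (Pool.Agent.Helper69.RK.pr ν g ω)) =
      ν ω * Real.logb 2 (if ν ω = 0 then 1 else Pool.Agent.Helper69.RK.pr μ g ω / Pool.Agent.Helper69.RK.pr ν g ω) := by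
    intro ω
    by_cases h : ν ω = 0
    · rw [h, zero_mul, zero_mul]
    · rw [if_neg h, Real.logb_div (e1_pr_pos μ g hμ ω (hs ω h)).ne' (e1_pr_pos ν g hν ω h).ne']
  rw [Finset.sum_congr rfl fun ω _ => h2 ω]
  apply e1_gibbs ν _ hν
  · intro ω h
    rw [if_neg h]
    exact div_pos (e1_pr_pos μ g hμ ω (hs ω h)) (e1_pr_pos ν g hν ω h)
  · refine le_trans ?_ h1
    have h3 := cell_sum ν μ (fun _ => 1) g hν hμ (fun _ => zero_le_one)
    simp only [mul_one] at h3
    refine le_trans (le_of_eq ?_) h3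
    apply Finset.sum_congr rfl
    intro ω _
    by_cases h : ν ω = 0
    · rw [h]; simp
    · rw [if_neg h]
      have h4 : (∑ ω' : Ω, if g ω' = g ω then μ ω' else 0) = Pool.Agent.Helper69.RK.pr μ g ω := rfl
      rw [h4]; ring

end fin

section fsp

variable (F : FSp) (E : F.Ω → Prop) {α γ : Type} (f : F.Ω → α) (g : F.Ω → γ)

theorem rmu_nn (ω : F.Ω) : 0 ≤ F.restμ E ω := (F.rest E).nn ω

theorem rmu_sum : ∑ ω, F.restμ E ω = 1 := (F.rest E).ms

/-- the atoms of the restricted weights are smaller -/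
theorem pr_rest_le {δ : Type} (l : F.Ω → δ) (hE : 0 < F.pb E) (ω : F.Ω) :
    Pool.Agent.Helper69.RK.pr (F.restμ E) l ω ≤ Pool.Agent.Helper69.RK.pr F.μ l ω / F.pb E := by
  classical
  rw [le_div_iff₀ hE, F.restμ_eq E hE.ne']
  unfold Pool.Agent.Helper69.RK.pr
  rw [Finset.sum_mul]
  apply Finset.sum_le_sum
  intro ω' _
  by_cases h : l ω' = l ω
  · rw [if_pos h, if_pos h]
    have h2 : (F.pb E)⁻¹ * res F.μ E ω' * F.pb E = res F.μ E ω' := by
      have := hE.ne'
      field_simp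
    rw [h2]
    by_cases h' : E ω'
    · rw [res_pos _ _ _ h']
    · rw [res_neg _ _ _ h']
      exact F.nn _
  · rw [if_neg h, if_neg h, zero_mul]

/-- entropies on an event on which the density is large -/
theorem rest_ge (hE : 0 < F.pb E) (c : ℝ) (hc : ∀ ω, F.μ ω ≠ 0 → E ω → c ≤ den F.μ f g ω) :
    c + Real.logb 2 (F.pb E) ≤ CH (F.restμ E) f g := by
  have hs : ∀ ω, F.restμ E ω ≠ 0 → F.μ ω ≠ 0 ∧ E ω := fun ω h =>
    ⟨(F.rest_supp E ω h).1, (F.rest_supp E ω h).2 hE.ne'⟩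
  have hm : ∑ ω, F.restμ E ω = 1 := rmu_sum F E
  have hm0 : ∑ ω, F.μ ω = 1 := F.ms
  have hnn := rmu_nn F E
  have h1 := kl_cell (F.restμ E) F.μ g hnn F.nn (by rw [hm, hm0]) (fun ω h => (hs ω h).1)
  have h2 : ∑ ω, F.restμ E ω * (c + Real.logb 2 (F.pb E)) = c + Real.logb 2 (F.pb E) := by
    rw [← Finset.sum_mul, hm, one_mul]
  rw [← h2]
  unfold CH
  have h3 : ∑ ω, F.restμ E ω * (c + Real.logb 2 (F.pb E)) ≤
      ∑ ω, (F.restμ E ω * (Real.logb 2 (Pool.Agent.Helper69.RK.pr (F.restμ E) g ω) -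
        Real.logb 2 (Pool.Agent.Helper69.RK.pr (F.restμ E) (fun ω' => (f ω', g ω')) ω)) +
        F.restμ E ω * (Real.logb 2 (Pool.Agent.Helper69.RK.pr F.μ g ω) -
          Real.logb 2 (Pool.Agent.Helper69.RK.pr (F.restμ E) g ω))) := by
    apply Finset.sum_le_sum
    intro ω _
    by_cases h : F.restμ E ω = 0
    · rw [h]; simp
    · rw [← mul_add]
      apply mul_le_mul_of_nonneg_left _ (hnn ω)
      have h4 := hc ω (hs ω h).1 (hs ω h).2
      unfold den at h4
      have p1 : 0 < Pool.Agent.Helper69.RK.pr (F.restμ E) (fun ω' => (f ω', g ω')) ω := e1_pr_pos _ _ hnn ω h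
      have p2 : 0 < Pool.Agent.Helper69.RK.pr F.μ (fun ω' => (f ω', g ω')) ω := e1_pr_pos _ _ F.nn ω (hs ω h).1
      have h5 := Real.logb_le_logb_of_le (b := 2) (by norm_num) p1 (pr_rest_le F E (fun ω' => (f ω', g ω')) hE ω)
      rw [Real.logb_div p2.ne' hE.ne'] at h5
      linarith
  rw [Finset.sum_add_distrib] at h3
  linarith

/-- the part of the entropy on an event -/
theorem part_le (N : ℝ) (hN : 1 ≤ N)
    (hc : ∀ ω, F.μ ω ≠ 0 → (nvf F.μ f g ω : ℝ) ≤ N) :
    ∑ ω, res F.μ E ω * den F.μ f g ω ≤ F.pb E * Real.logb 2 N + 2 := by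
  classical
  have hp := F.pb_nonneg E
  rcases hp.lt_or_eq with hE | hE
  swap
  · have h1 : ∀ ω, res F.μ E ω = 0 := F.res_zero_of_pb E hE.symm
    rw [← hE]
    simp only [h1, zero_mul, Finset.sum_const_zero, zero_add]
    norm_num
  have hr : ∀ ω, 0 ≤ res F.μ E ω := F.res_nonneg E
  have hle : ∀ ω, res F.μ E ω ≤ F.μ ω := by
    intro ω
    by_cases h : E ω
    · rw [res_pos _ _ _ h]
    · rw [res_neg _ _ _ h]; exact F.nn ω
  have hsup : ∀ ω, res F.μ E ω ≠ 0 → F.μ ω ≠ 0 := by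
    intro ω h h0
    apply h
    exact le_antisymm (by rw [← h0]; exact hle ω) (hr ω)
  have hN0 : 0 < N := by linarith
  set q : F.Ω → ℝ := fun ω => if res F.μ E ω = 0 then 1 else
    F.pb E * (Pool.Agent.Helper69.RK.pr F.μ g ω / Pool.Agent.Helper69.RK.pr F.μ (fun ω' => (f ω', g ω')) ω) / N with hq
  have g1 : ∑ ω, res F.μ E ω * Real.logb 2 (q ω) ≤ 0 := by
    apply e1_gibbs _ _ hr
    · intro ω h
      have h0 := hsup ω h
      rw [hq]
      beta_reduce
      rw [if_neg h]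
      have p1 := e1_pr_pos F.μ g F.nn ω h0
      have p2 := e1_pr_pos F.μ (fun ω' => (f ω', g ω')) F.nn ω h0
      positivity
    · have h2 : ∀ ω, res F.μ E ω * q ω ≤
          F.pb E / N * (F.μ ω / Pool.Agent.Helper69.RK.pr F.μ (fun ω' => (f ω', g ω')) ω * Pool.Agent.Helper69.RK.pr F.μ g ω) := by
        intro ω
        by_cases h : res F.μ E ω = 0
        · rw [h, zero_mul]
          exact mul_nonneg (by positivity) (mul_nonneg (div_nonneg (F.nn ω) (e1_pr_nonneg _ _ F.nn ω))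
            (e1_pr_nonneg _ _ F.nn ω))
        · rw [hq]
          beta_reduce
          rw [if_neg h]
          have p1 := e1_pr_pos F.μ g F.nn ω (hsup ω h)
          have p2 := e1_pr_pos F.μ (fun ω' => (f ω', g ω')) F.nn ω (hsup ω h)
          calc res F.μ E ω * (F.pb E * (Pool.Agent.Helper69.RK.pr F.μ g ω / Pool.Agent.Helper69.RK.pr F.μ (fun ω' => (f ω', g ω')) ω) / N) ≤
              F.μ ω * (F.pb E * (Pool.Agent.Helper69.RK.pr F.μ g ω / Pool.Agent.Helper69.RK.pr F.μ (fun ω' => (f ω', g ω')) ω) / N) :=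
                mul_le_mul_of_nonneg_right (hle ω) (by positivity)
            _ = _ := by ring
      refine (Finset.sum_le_sum fun ω _ => h2 ω).trans ?_
      rw [← Finset.mul_sum]
      have h3 : ∑ ω, F.μ ω / Pool.Agent.Helper69.RK.pr F.μ (fun ω' => (f ω', g ω')) ω * Pool.Agent.Helper69.RK.pr F.μ g ω ≤ N := by
        have h4 : ∑ ω, F.μ ω / Pool.Agent.Helper69.RK.pr F.μ (fun ω' => (f ω', g ω')) ω * Pool.Agent.Helper69.RK.pr F.μ g ω =
            ∑ ω', F.μ ω' * ∑ ω ∈ (univ : Finset F.Ω).filter (fun ω => F.μ ω ≠ 0 ∧ g ω = g ω'),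
              F.μ ω / Pool.Agent.Helper69.RK.pr F.μ (fun ω' => (f ω', g ω')) ω := by
          simp_rw [Finset.mul_sum, Finset.sum_filter]
          rw [Finset.sum_comm]
          apply Finset.sum_congr rfl
          intro ω _
          have h5 : Pool.Agent.Helper69.RK.pr F.μ g ω = ∑ ω' : F.Ω, if g ω' = g ω then F.μ ω' else 0 := rfl
          rw [h5, Finset.mul_sum]
          apply Finset.sum_congr rfl
          intro ω' _
          by_cases h : F.μ ω = 0
          · rw [h]; simp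
          · by_cases h' : g ω' = g ω
            · rw [if_pos h', if_pos ⟨h, h'.symm⟩]; ring
            · rw [if_neg h', if_neg (fun hc => h' hc.2.symm)]; ring
        rw [h4]
        calc _ ≤ ∑ ω', F.μ ω' * N := by
              apply Finset.sum_le_sum
              intro ω' _
              by_cases h : F.μ ω' = 0
              · rw [h]; simp
              · apply mul_le_mul_of_nonneg_left _ (F.nn ω')
                refine (e3_sum_atom F.μ f g F.nn ω').trans ?_
                exact hc ω' h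
          _ = N := by
              rw [← Finset.sum_mul]
              have : ∑ ω, F.μ ω = 1 := F.ms
              rw [this, one_mul]
      calc F.pb E / N * ∑ ω, F.μ ω / Pool.Agent.Helper69.RK.pr F.μ (fun ω' => (f ω', g ω')) ω * Pool.Agent.Helper69.RK.pr F.μ g ω ≤ F.pb E / N * N :=
            mul_le_mul_of_nonneg_left h3 (by positivity)
        _ = F.pb E := by field_simp
        _ = ∑ ω, res F.μ E ω := rfl
  have g2 : ∑ ω, res F.μ E ω * Real.logb 2 (q ω) =
      ∑ ω, res F.μ E ω * (den F.μ f g ω) + F.pb E * (Real.logb 2 (F.pb E) - Real.logb 2 N) := by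
    have h1 : F.pb E = ∑ ω, res F.μ E ω := rfl
    have h2 : F.pb E * (Real.logb 2 (F.pb E) - Real.logb 2 N) =
        ∑ ω, res F.μ E ω * (Real.logb 2 (F.pb E) - Real.logb 2 N) := by
      rw [← Finset.sum_mul, ← h1]
    rw [h2, ← Finset.sum_add_distrib]
    apply Finset.sum_congr rfl
    intro ω _
    by_cases h : res F.μ E ω = 0
    · rw [h]; simp
    · rw [hq]
      beta_reduce
      rw [if_neg h]
      have p1 := e1_pr_pos F.μ g F.nn ω (hsup ω h)
      have p2 := e1_pr_pos F.μ (fun ω' => (f ω', g ω')) F.nn ω (hsup ω h)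
      rw [Real.logb_div (by positivity) hN0.ne', Real.logb_mul hE.ne' (by positivity),
        Real.logb_div p1.ne' p2.ne']
      unfold den
      ring
  have g3 : -(F.pb E * Real.logb 2 (F.pb E)) ≤ 2 := by
    have h1 : Real.logb 2 (F.pb E)⁻¹ ≤ ((F.pb E)⁻¹ - 1) / Real.log 2 := e1_log_le (inv_pos.mpr hE)
    rw [Real.logb_inv] at h1
    have h2 : F.pb E * -Real.logb 2 (F.pb E) ≤ F.pb E * (((F.pb E)⁻¹ - 1) / Real.log 2) :=
      mul_le_mul_of_nonneg_left h1 hE.le
    have h3 : F.pb E * (((F.pb E)⁻¹ - 1) / Real.log 2) = (1 - F.pb E) / Real.log 2 := by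
      field_simp
    have h4 : (0.5 : ℝ) ≤ Real.log 2 := by
      have := Real.log_two_gt_d9
      linarith
    have h5 : (1 - F.pb E) / Real.log 2 ≤ 2 := by
      rw [div_le_iff₀ (by linarith)]
      linarith
    rw [h3] at h2
    linarith
  rw [g2] at g1
  nlinarith

end fsp

end

end Pool.Agent.Helper8.PLK
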