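import Pool.Agent.Helper8.PLK.Nbt

/-! The hypotheses of LEMMA NB hold on events. -/

set_option autoImplicit false

namespace Pool.Agent.Helper8.PLK

open Finset Filter Topology Pool.Agent.Helper69.RK Pool.Agent.Helper31.EC Pool.Agent.Helper82.TP
  Pool.Agent.Helper46.LIN Pool.Agent.Helper54.NB Pool.Agent.Helper62.UR

noncomputable section

open Sp QS

variable {S : Sp}

/-- unsaturated functions on events -/
theorem uns_ev {z : QS S} {A : S.L} {a0 c : ℝ} (h0 : UnS z A a0 c) (E : ∀ k, (S.F k).Ω → Prop)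
    (hE : 0 < ul (S.pr E)) : UnS (QS.rest E hE z) (restL E hE A) a0 c := by
  intro T p E' hE' a b h1 h2 h3
  have u : Vw (Vw.ev E hE).D := ⟨T, p, E', hE'⟩
  have h4 := h0 ((Vw.ev E hE).comp ⟨T, p, E', hE'⟩).W ((Vw.ev E hE).comp ⟨T, p, E', hE'⟩).p
    ((Vw.ev E hE).comp ⟨T, p, E', hE'⟩).E ((Vw.ev E hE).comp ⟨T, p, E', hE'⟩).hE a b h1 h2 h3
  have h5 := (Vw.ev E hE).c_h ⟨T, p, E', hE'⟩ (dg z b) (dg z a ⊔ A)
  rw [Vw.ev_up, Vw.ev_up, restL_sup] at h5
  rw [QS.rest_dg, QS.rest_dg]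
  exact (le_of_eq h5.symm).trans h4

/-- literal functions of the restricted space come from the space -/
theorem lit_ev (E : ∀ k, (S.F k).Ω → Prop) (hE : 0 < ul (S.pr E)) {α : ℕ → Type} {V : ∀ k, (S.F k).Ω → α k}
    {g : QS (S.rest E)} (hg : Lit (S := S.rest E) V g) : ∃ f : QS S, Lit V f ∧ QS.rest E hE f = g := by
  obtain ⟨f, hf, h1⟩ := lit_desc (Vw.ev E hE) (V := V) (g := g) hg
  refine ⟨f, hf, ?_⟩
  rw [← h1, Vw.ev_uq]

/-- equalities on nested events -/
theorem rr_eq {E : ∀ k, (S.F k).Ω → Prop} {E' : ∀ k, ((S.rest E).F k).Ω → Prop} (hE : 0 < ul (S.pr E))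
    (hE' : 0 < ul ((S.rest E).pr E')) {f g : QS S}
    (h : QS.rest E' hE' (QS.rest E hE f) = QS.rest E' hE' (QS.rest E hE g)) :
    QS.rest (EE E E') (rr_pos E E' hE hE') f = QS.rest (EE E E') (rr_pos E E' hE hE') g := by
  rw [← sub_eq_zero, ← map_sub, ← mem_Id_one]
  apply rr_mem E E' hE hE' le_rfl
  rw [mem_Id_one, map_sub, map_sub, h, sub_self]

/-- digits on nested events -/
theorem rr_dg (E : ∀ k, (S.F k).Ω → Prop) (E' : ∀ k, ((S.rest E).F k).Ω → Prop) (hE : 0 < ul (S.pr E))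
    (hE' : 0 < ul ((S.rest E).pr E')) (f : QS S) (r : ℝ) (y : S.L) :
    h (dg (QS.rest E' hE' (QS.rest E hE f)) r) (restL E' hE' (restL E hE y)) =
      h (dg (QS.rest (EE E E') (rr_pos E E' hE hE') f) r) (restL (EE E E') (rr_pos E E' hE hE') y) := by
  rw [QS.rest_dg, QS.rest_dg, QS.rest_dg, rr_h E E' hE hE']

theorem NBH.rest {H : NBD S} {w1 w ρ σ : ℝ} {Sc : Set ℝ} (hH : NBH H w1 w ρ σ Sc) (E : ∀ k, (S.F k).Ω → Prop)
    (hE : 0 < ul (S.pr E)) : NBH (H.rest E hE) w1 w ρ σ Sc := by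
  have eA : (H.rest E hE).iA = restL E hE H.iA := (restL_io E hE hH.bA).symm
  have eB : (H.rest E hE).iB = restL E hE H.iB := (restL_io E hE hH.bB).symm
  have ey : (H.rest E hE).y = QS.rest E hE H.y := by
    show QS.rest E hE H.a + QS.rest E hE H.t * QS.rest E hE H.x = QS.rest E hE (H.a + H.t * H.x)
    rw [map_add, map_mul]
  have eR : (H.rest E hE).R = QS.rest E hE H.R := by
    show QS.rest E hE H.cR + QS.rest E hE H.t * QS.rest E hE H.F = QS.rest E hE (H.cR + H.t * H.F)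
    rw [map_add, map_mul]
  have ez : (H.rest E hE).z = QS.rest E hE H.z := by
    show QS.rest E hE H.cz + QS.rest E hE H.t * QS.rest E hE H.v = QS.rest E hE (H.cz + H.t * H.v)
    rw [map_add, map_mul]
  have et : (H.rest E hE).t = QS.rest E hE H.t := rfl
  have ex : (H.rest E hE).x = QS.rest E hE H.x := rfl
  have eK : ∀ s, (H.rest E hE).K s = restL E hE (H.K s) := fun _ => rfl
  have ec : ∀ s, (H.rest E hE).c s = QS.rest E hE (H.c s) := fun _ => rfl
  have eq : (H.rest E hE).q = restL E hE H.q := by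
    show dg (H.rest E hE).t 1 ⊔ dg (H.rest E hE).y 1 = restL E hE (dg H.t 1 ⊔ dg H.y 1)
    rw [et, ey, QS.rest_dg, QS.rest_dg, restL_sup]
  have eM : (H.rest E hE).M = restL E hE H.M := by
    show dg (H.rest E hE).t 1 ⊔ dg (H.rest E hE).y 1 ⊔ dg (H.rest E hE).R 1 =
      restL E hE (dg H.t 1 ⊔ dg H.y 1 ⊔ dg H.R 1)
    rw [et, ey, eR, QS.rest_dg, QS.rest_dg, QS.rest_dg, restL_sup, restL_sup]
  refine {
    hw1 := hH.hw1
    hw := hH.hw
    hρ := hH.hρ
    hσ := hH.hσ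
    hwσ := hH.hwσ
    bA := rest_VB E hH.bA
    bB := rest_VB E hH.bB
    lx := lit_rest E hE hH.lx
    la := lit_rest E hE hH.la
    lF := lit_rest E hE hH.lF
    lcR := lit_rest E hE hH.lcR
    lv := lit_rest E hE hH.lv
    lcz := lit_rest E hE hH.lcz
    lt := lit_rest E hE hH.lt
    ly := by rw [ey]; exact lit_rest E hE hH.ly
    lR := by rw [eR]; exact lit_rest E hE hH.lR
    lz := by rw [ez]; exact lit_rest E hE hH.lz
    time := ?_
    T1 := ?_
    uns := by rw [ez, eM]; exact uns_ev hH.uns E hE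
    pos := hH.pos
    le := hH.le
    dense := hH.dense
    KB := fun s hs => by rw [eK, eB]; exact restL_mono E hE (hH.KB s hs)
    mono := fun s hs s' hs' h => by rw [eK, eK]; exact restL_mono E hE (hH.mono s hs s' hs' h)
    cK := fun s hs => by rw [ec, eK, QS.rest_dg]; exact restL_mono E hE (hH.cK s hs)
    frZ := fun s hs => ?_
    frR := fun s hs => ?_
    full := fun s hs => ?_
    agr := ?_
    H4 := ?_ }
  · rw [et, eA, QS.rest_dg]
    apply Sp.h_rest_max E hE hH.time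
    intro E' hE'
    rw [← QS.rest_dg]
    exact h_dg_le_one _ _
  · rw [ex, eB, QS.rest_dg, ← restL_bot E hE]
    exact I_rest_zero E hE hH.T1
  · obtain ⟨e, h1, h2⟩ := hH.frZ s hs
    refine ⟨QS.rest E hE e, ?_, ?_⟩
    · rw [eK, eq, QS.rest_dg, ← restL_sup]
      exact restL_mono E hE h1
    · rw [ez, eR, ec, ← map_mul, ← map_add, ← map_sub]
      exact rest_mem_Id E hE h2
  · rw [eR, eK, eq, QS.rest_dg, ← restL_sup]
    exact restL_mono E hE (hH.frR s hs)
  · rw [eR, eK, eq, ← restL_sup]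
    have h1 := full_up H.R (r := w1 * s) (s := 1) (by
      have h2 := hH.le s hs
      have h3 := hH.hwσ
      have h4 := hH.hw
      have h5 := hH.hw1
      have h6 := hH.pos s hs
      nlinarith) (hH.frR s hs) (hH.full s hs) (Vw.ev E hE)
    rw [Vw.ev_uq, Vw.ev_up] at h1
    exact h1
  · intro E' hE' gA gB hA hB hg
    obtain ⟨fA, lA, rfl⟩ := lit_ev E hE hA
    obtain ⟨fB, lB, rfl⟩ := lit_ev E hE hB
    have h1 := hH.agr (EE E E') (rr_pos E E' hE hE') fA fB lA lB (rr_eq hE hE' hg)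
    apply le_antisymm _ bot_le
    rw [← h_le_zero_iff, ← restL_bot E' hE', ← restL_bot E hE, rr_dg, h1, restL_bot]
    exact (h_zero le_rfl).le
  · intro E' hE' gA gB hA hB hg s hs hc
    obtain ⟨fA, lA, rfl⟩ := lit_ev E hE hA
    obtain ⟨fB, lB, rfl⟩ := lit_ev E hE hB
    have hle : (w - w1) * s ≤ 1 := by
      have h2 := hH.le s hs
      have h3 := hH.hwσ
      have h4 := hH.hw
      have h5 := hH.hw1
      have h6 := hH.pos s hs
      nlinarith
    have h1 : QS.rest (EE E E') (rr_pos E E' hE hE') (fB - H.c s) ∈ Id (S.rest (EE E E')) ((w - w1) * s) := by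
      apply rr_mem E E' hE hE' hle
      rw [ec, ← map_sub] at hc
      exact hc
    have h2 := hH.H4 (EE E E') (rr_pos E E' hE hE') fA fB lA lB (rr_eq hE hE' hg) s hs h1
    rw [ez, eR, eK, eq, ← map_mul, ← map_sub, ← restL_sup, rr_dg]
    exact h2

end

end Pool.Agent.Helper8.PLK
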