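import Pool.Agent.Helper31.NSB.St
import Pool.Agent.Helper8.PLK.NbR

/-! Case B of the chain for `R^4`: the corner data over a label satisfy the hypotheses of LEMMA NB (in the windows up to
a given one), and LEMMA NB gives the row `ST_NB`. -/

set_option autoImplicit false

namespace Pool.Agent.Helper8.PLK

open Finset Filter Topology Pool.Agent.Helper69.RK Pool.Agent.Helper31.EC Pool.Agent.Helper82.TP
  Pool.Agent.Helper54.NB Pool.Agent.Helper31.NSB Pool.Agent.Helper79.NF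

noncomputable section

open Sp QS

variable {S : Sp}

/-- the data of LEMMA NB at the window `s1` -/
def nbd (H : RD S) (f : FR S) (s1 : ℝ) : NBD S where
  t := H.t
  x := H.x
  a := H.a
  F := H.F
  cR := H.cR
  v := H.v
  cz := H.az
  αA := H.α
  VA := H.VA
  αB := fun k => H.γ k × H.β s1 k
  VB := VBs H s1
  K := H.κ
  c := f.c

theorem nbd_y (H : RD S) (f : FR S) (s1 : ℝ) : (nbd H f s1).y = H.y := by
  show (H.y - H.t * H.x) + H.t * H.x = H.y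
  ring

theorem nbd_R (H : RD S) (f : FR S) (s1 : ℝ) : (nbd H f s1).R = H.R := by
  show (H.R - H.t * H.F) + H.t * H.F = H.R
  ring

theorem nbd_z (H : RD S) (f : FR S) (s1 : ℝ) : (nbd H f s1).z = H.z := by
  show (H.z - H.t * H.v) + H.t * H.v = H.z
  ring

theorem nbd_q (H : RD S) (f : FR S) (s1 : ℝ) : (nbd H f s1).q = H.q := by
  unfold NBD.q HD0.q
  rw [nbd_y]
  rfl

theorem nbd_M (H : RD S) (f : FR S) (s1 : ℝ) : (nbd H f s1).M = H.M := by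
  unfold NBD.M HD0.M
  rw [nbd_y, nbd_R]
  rfl

/-- the digits of `t` and `y` up to the window are known to the label -/
theorem dg_base_le {κs : S.L} {u u0 : QS S} {s : ℝ} (hs : s ≤ 1) (h1 : u - u0 ∈ Id S s) (h2 : dg u0 1 ≤ κs) :
    dg u s ≤ κs :=
  dg_le_of_sub h1 le_rfl hs ((dg_mono u0 hs).trans h2)

/-- the base point has at most `2 (1 - s)` digits beyond the window -/
theorem h_q_le {κs : S.L} {t y t0 y0 : QS S} {s : ℝ} (hs : s ≤ 1) (h1 : t - t0 ∈ Id S s) (h2 : dg t0 1 ≤ κs)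
    (h3 : y - y0 ∈ Id S s) (h4 : dg y0 1 ≤ κs) : h (dg t 1 ⊔ dg y 1) κs ≤ 2 * (1 - s) := by
  have e1 := (Uq.dg t hs (dg_base_le hs h1 h2)).self
  have e2 := (Uq.dg y hs (dg_base_le hs h3 h4)).self
  have e3 := h_sup_le (dg t 1) (dg y 1) κs
  linarith

theorem nbh {H : RD S} {f : FR S} {w1 w ρ σ : ℝ} {Sc : Set ℝ} (hC : CC H f w1 w ρ Sc) (hF : Fz H f w1 w Sc)
    (hw1 : 1 < w1) (hw : w1 ≤ w) (hwσ : w * σ ≤ 1) (hle : ∀ s ∈ Sc, s ≤ σ) (hd : Dns Sc σ) {s1 : ℝ}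
    (hs1 : s1 ∈ Sc) (hpos : 0 < s1) : NBH (nbd H f s1) w1 w ρ s1 (Sc ∩ {s | 0 < s ∧ s ≤ s1}) := by
  have hs1σ : s1 ≤ σ := hle s1 hs1
  have hws : ∀ s ∈ Sc ∩ {s : ℝ | 0 < s ∧ s ≤ s1}, w * s ≤ 1 ∧ w1 * s ≤ 1 ∧ s ≤ 1 := by
    intro s hs
    have h1 := hs.2.1
    have h2 := hle s hs.1
    refine ⟨?_, ?_, ?_⟩ <;> nlinarith
  have eA : (nbd H f s1).iA = H.L := hC.iA
  have eB : (nbd H f s1).iB = H.B ⊔ H.κ s1 := by
    show io (fun k ω => (H.VB k ω, H.K s1 k ω)) = H.B ⊔ H.κ s1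
    rw [io_pair hC.bB (hC.bdd s1 hs1), hC.iB]
    rfl
  have pB : ∀ g : QS S, Lit H.VB g → Lit (VBs H s1) g := fun g hg =>
    hg.of_fun (Eventually.of_forall fun k ω ω' _ _ _ e => congrArg Prod.fst e)
  have kq : ∀ s ∈ Sc, ∀ r ≤ 1, dg (f.t0 s) r ≤ H.κ s ∧ dg (f.y0 s) r ≤ H.κ s ∧ dg (f.r0 s) r ≤ H.κ s ∧
      dg (f.rt s) r ≤ H.κ s ∧ dg (f.ry s) r ≤ H.κ s ∧ dg (f.z0 s) r ≤ H.κ s ∧ dg (f.k0 s) r ≤ H.κ s ∧
      dg (f.k1 s) r ≤ H.κ s ∧ dg (f.c s) r ≤ H.κ s := by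
    intro s hs r hr
    have hb := hC.bdd s hs
    exact ⟨(hC.lt s hs).1.dg_le hb hr, (hC.lt s hs).2.dg_le hb hr, (hC.lr s hs).1.dg_le hb hr,
      (hC.lr s hs).2.1.dg_le hb hr, (hC.lr s hs).2.2.dg_le hb hr, (hC.lz s hs).1.dg_le hb hr,
      (hC.lz s hs).2.1.dg_le hb hr, (hC.lz s hs).2.2.1.dg_le hb hr, (hC.lz s hs).2.2.2.dg_le hb hr⟩
  have tq : ∀ s : ℝ, ∀ r ≤ (1 : ℝ), dg H.t r ≤ H.κ s ⊔ H.q := fun s r hr =>
    (dg_mono H.t hr).trans (le_sup_left.trans le_sup_right)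
  have yq : ∀ s : ℝ, ∀ r ≤ (1 : ℝ), dg H.y r ≤ H.κ s ⊔ H.q := fun s r hr =>
    (dg_mono H.y hr).trans (le_sup_right.trans le_sup_right)
  refine {
    hw1 := hw1
    hw := hw
    hρ := hC.hρ
    hσ := hpos
    hwσ := by nlinarith
    bA := hC.bA
    bB := hC.bB.pair (hC.bdd s1 hs1)
    lx := hC.lA.1
    la := hC.lA.2.1
    lF := hC.lA.2.2.1
    lcR := hC.lA.2.2.2.1
    lv := hC.lA.2.2.2.2.1
    lcz := hC.lA.2.2.2.2.2
    lt := pB _ hC.lB.1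
    ly := by rw [nbd_y]; exact pB _ hC.lB.2.1
    lR := by rw [nbd_R]; exact pB _ hC.lB.2.2.1
    lz := by rw [nbd_z]; exact pB _ hC.lB.2.2.2
    time := by rw [eA]; exact hC.time
    T1 := by rw [eB, sup_comm]; exact hC.T1 s1 hs1
    uns := ?_
    pos := fun s hs => hs.2.1
    le := fun s hs => hs.2.2
    dense := fun a b ha hab hb => ?_
    KB := fun s hs => by
      rw [eB]
      exact (hC.mono s hs.1 s1 hs1 hs.2.2).trans le_sup_right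
    mono := fun s hs s' hs' hss => hC.mono s hs.1 s' hs'.1 hss
    cK := fun s hs => (kq s hs.1 1 le_rfl).2.2.2.2.2.2.2.2
    frZ := fun s hs => ?_
    frR := fun s hs => ?_
    full := fun s hs => ?_
    agr := ?_
    H4 := ?_ }
  · -- unsaturated
    rw [nbd_z, nbd_M]
    intro T p E hE a b h1 h2 h3
    refine (h_anti ?_).trans (hC.uns T p E hE a b h1 h2 h3)
    apply restL_mono
    apply p.map_mono
    apply sup_le_sup_left
    exact sup_le_sup (sup_le_sup (dg_mono _ h3) (dg_mono _ h3)) (dg_mono _ h3)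
  · obtain ⟨s, hs, h1, h2⟩ := hd a b ha.le hab (hb.trans hs1σ)
    exact ⟨s, ⟨hs, ha.trans h1, h2.le.trans hb⟩, h1, h2⟩
  · -- frame of `z`
    refine ⟨f.z0 s + f.k0 s * H.t + f.k1 s * H.y, ?_, ?_⟩
    · rw [nbd_q]
      show dg (f.z0 s + f.k0 s * H.t + f.k1 s * H.y) 1 ≤ H.κ s ⊔ H.q
      obtain ⟨-, -, -, -, -, k1, k2, k3, -⟩ := kq s hs.1 1 le_rfl
      exact dg_add_le' _ _ le_rfl (dg_add_le' _ _ le_rfl (k1.trans le_sup_left)
        (dg_mul_le' _ _ le_rfl (k2.trans le_sup_left) (tq s 1 le_rfl)))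
        (dg_mul_le' _ _ le_rfl (k3.trans le_sup_left) (yq s 1 le_rfl))
    · rw [nbd_z, nbd_R]
      exact hC.frZ s hs.1
  · -- frame of `R`
    rw [nbd_R, nbd_q]
    show dg H.R (w1 * s) ≤ H.κ s ⊔ H.q
    have hle1 := (hws s hs).2.1
    obtain ⟨-, -, k1, k2, k3, -⟩ := kq s hs.1 (w1 * s) hle1
    exact dg_le_of_sub (hC.frR s hs.1) le_rfl hle1 (dg_add_le' _ _ hle1 (dg_add_le' _ _ hle1 (k1.trans le_sup_left)
        (dg_mul_le' _ _ hle1 (k2.trans le_sup_left) (tq s _ hle1)))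
        (dg_mul_le' _ _ hle1 (k3.trans le_sup_left) (yq s _ hle1)))
  · -- fullness
    rw [nbd_R, nbd_q]
    show 1 - w1 * s ≤ h (dg H.R 1) (H.κ s ⊔ H.q)
    have hle1 := (hws s hs).2.1
    have h1 : 3 - (2 + w1) * s ≤ h H.M (H.κ s) := by
      have ht : Typ (S := S) (fun _ _ => True) := Typ_true
      have h4 := hC.full s hs.1 hle1 S (Pj.id S) (fun _ _ => True) (ul_pr_typ_pos _ ht)
      rw [h_restL_typ _ ht, Pj.id_map, Pj.id_map] at h4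
      exact h4
    have h2 := h_chain H.q (dg H.R 1) (H.κ s)
    have h3 : H.q ⊔ dg H.R 1 = H.M := rfl
    obtain ⟨k1, k2, -⟩ := kq s hs.1 1 le_rfl
    have h5 := h_q_le (hws s hs).2.2 (hC.ft s hs.1).1 k1 (hC.fy s hs.1).1 k2
    have h6 : h H.q (H.κ s) ≤ 2 * (1 - s) := h5
    rw [h3, sup_comm H.q] at h2
    linarith
  · -- agreement
    intro E hE gA gB hA hB hg
    have hA' : Lit (fun k ω => (H.VA k ω, H.K 0 k ω)) gA :=
      Lit.of_fun (V := H.VA) hA (Eventually.of_forall fun k ω ω' _ _ _ e => congrArg Prod.fst e)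
    have h1 := hC.agr 0 hC.zero s1 hs1 hpos.le E hE gA gB 1 one_pos le_rfl hA' hB (by
      rw [map_sub, hg, sub_self]
      exact (Id (S.rest E) 1).zero_mem)
    rw [QS.rest_dg]
    rw [hC.κ0, restL_bot] at h1
    exact le_antisymm h1 bot_le
  · -- fullness of the projections
    intro E hE gA gB hA hB hg s hs hc
    rw [nbd_z, nbd_R, nbd_q]
    have hA' : Lit (VAs H 0) gA :=
      Lit.of_fun (V := H.VA) hA (Eventually.of_forall fun k ω ω' _ _ _ e => congrArg Prod.fst e)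
    exact hF s hs.1 s1 hs1 E hE gA gB hA' hB hg hc (hws s hs).1

/-- the row `ST_NB` of case B from LEMMA NB -/
theorem st_nb (st : Prop) (h0 : st → Pool.Agent.Helper54.NB.ST_NB) : Pool.Agent.Helper31.NSB.ST_NB st := by
  intro hst S H f w1 w ρ σ Sc hC hF hw1 hw hσ hwσ hle hd s hs N hN hNs
  have hpos : 0 < s := hN.trans hNs
  have hb := nbh hC hF hw1 hw hwσ hle hd hs hpos
  obtain ⟨c1, c2, c3⟩ := h0 hst S (nbd H f s) w1 w ρ s _ hb s ⟨hs, hpos, le_rfl⟩ N hN hNs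
  have d1 : dg H.F ((w1 - 1) * s + N) ≤ H.κ s ⊔ (dg H.a 1 ⊔ dg H.x 1 ⊔ dg H.t 1) := by
    refine c1.trans ?_
    show dg H.x 1 ⊔ dg H.a 1 ⊔ dg H.t 1 ⊔ H.κ s ≤ _
    rw [sup_comm (dg H.x 1), sup_comm _ (H.κ s)]
  have d2 : dg (H.v - f.c s * H.F) ((w - 1) * s + N) ≤
      H.κ s ⊔ (dg H.a 1 ⊔ dg H.x 1 ⊔ dg H.t 1 ⊔ dg H.R 1) := by
    refine c2.trans ?_
    rw [nbd_R]
    show dg H.x 1 ⊔ dg H.a 1 ⊔ dg H.t 1 ⊔ dg H.R 1 ⊔ H.κ s ≤ _
    rw [sup_comm (dg H.x 1), sup_comm _ (H.κ s)]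
  refine ⟨hN, d1, d2, fun e => ?_⟩
  subst e
  have d3 : dg H.v ((w - 1) * s + N) ≤ H.κ s ⊔ (dg H.a 1 ⊔ dg H.x 1 ⊔ dg H.t 1) := by
    refine (c3 rfl).trans ?_
    show dg H.x 1 ⊔ dg H.a 1 ⊔ dg H.t 1 ⊔ H.κ s ≤ _
    rw [sup_comm (dg H.x 1), sup_comm _ (H.κ s)]
  have hle1 : (w - 1) * s + N ≤ 1 := by
    have := hle s hs
    nlinarith
  apply dg_sub_le' _ _ hle1 d3
  apply dg_mul_le' _ _ hle1 _ d1
  exact ((hC.lz s hs).2.2.2.dg_le (hC.bdd s hs) hle1).trans le_sup_left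

end

end Pool.Agent.Helper8.PLK
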