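import Pool.Agent.Helper8.PLK.Zr
import Pool.Agent.Helper54.NB.Str

/-! PLANKS OVER A BASE TO A DEPTH from planks over the base of the space to full depth (`PLK1` implies `PLKr`). -/

set_option autoImplicit false

namespace Pool.Agent.Helper8.PLK

open Finset Filter Topology Pool.Agent.Helper69.RK Pool.Agent.Helper31.EC Pool.Agent.Helper82.TP
  Pool.Agent.Helper54.NB

noncomputable section

open Sp QS

/-- digits of the time beyond a level are independent of the lines -/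
theorem indep {L : Type*} [PM L] {T1 Tr Ln A B : L} {c : ℝ} (hTr : Tr ≤ T1) (h1 : h T1 Tr ≤ c)
    (h2 : c ≤ h T1 (Tr ⊔ Ln)) (hA : A ≤ Ln ⊔ Tr) (hB : B ≤ Ln ⊔ Tr) : h A (B ⊔ Tr) = h A (B ⊔ T1) := by
  have e1 := h_chain A T1 (B ⊔ Tr)
  have e2 := h_chain T1 A (B ⊔ Tr)
  rw [sup_comm T1 A] at e2
  have e3 : h T1 (B ⊔ Tr) ≤ c := (h_anti le_sup_right).trans h1
  have e4 : c ≤ h T1 (A ⊔ (B ⊔ Tr)) :=
    h2.trans (h_anti (sup_le (hA.trans (by rw [sup_comm])) (sup_le (hB.trans (by rw [sup_comm])) le_sup_left)))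
  have e5 : T1 ⊔ (B ⊔ Tr) = B ⊔ T1 := by
    apply le_antisymm
    · exact sup_le le_sup_right (sup_le le_sup_left (hTr.trans le_sup_right))
    · exact sup_le (le_sup_left.trans le_sup_right) le_sup_left
  rw [e5] at e2
  apply le_antisymm
  · linarith
  · exact h_anti (sup_le_sup_left hTr B)

/-- the time is full beyond every level over the lines, in extensions and on events -/
theorem time_ev {S T : Sp} (p : Pj T S) (E : ∀ k, (T.F k).Ω → Prop) (hE : 0 < ul (T.pr E)) (t : QS S) (Ln : S.L)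
    {r : ℝ} (h0 : 0 ≤ r) (h1 : r ≤ 1) (ht : 1 ≤ h (dg t 1) Ln) :
    h (restL E hE (p.map (dg t 1))) (restL E hE (p.map (dg t r ⊔ Ln))) = 1 - r := by
  apply Sp.h_rest_max E hE
  · rw [p.h_map]
    apply le_antisymm
    · exact (h_anti le_sup_left).trans (h_dg_dg t h1)
    · have h2 := h_chain (dg t r) (dg t 1) Ln
      rw [sup_eq_right.mpr (dg_mono t h1)] at h2
      have h3 : h (dg t r) Ln ≤ r := (h_le_H _ _).trans (H_dg_le t h0)
      linarith
  · intro E' hE'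
    rw [← p.qs_dg, ← QS.rest_dg, Pj.map_sup, ← p.qs_dg, restL_sup, ← QS.rest_dg]
    exact (h_anti le_sup_left).trans (h_dg_dg _ h1)

theorem time_ev' {S T : Sp} (p : Pj T S) (E : ∀ k, (T.F k).Ω → Prop) (hE : 0 < ul (T.pr E)) (t : QS S)
    {r : ℝ} (h1 : r ≤ 1) : h (restL E hE (p.map (dg t 1))) (restL E hE (p.map (dg t r))) ≤ 1 - r := by
  rw [← p.qs_dg, ← QS.rest_dg, ← p.qs_dg, ← QS.rest_dg]
  exact h_dg_dg _ h1

/-- conditional entropies of digits over the time to depth `r` are those over the time to full depth -/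
theorem indep_ev {S T : Sp} (p : Pj T S) (E : ∀ k, (T.F k).Ω → Prop) (hE : 0 < ul (T.pr E)) (t : QS S) (Ln : S.L)
    {r : ℝ} (h0 : 0 ≤ r) (h1 : r ≤ 1) (ht : 1 ≤ h (dg t 1) Ln) {A B : (T.rest E).L}
    (hA : A ≤ restL E hE (p.map (Ln ⊔ dg t r))) (hB : B ≤ restL E hE (p.map (Ln ⊔ dg t r))) :
    h A (B ⊔ restL E hE (p.map (dg t r))) = h A (B ⊔ restL E hE (p.map (dg t 1))) := by
  rw [Pj.map_sup, restL_sup] at hA hB
  refine indep (restL_mono E hE (p.map_mono (dg_mono t h1))) (time_ev' p E hE t h1) ?_ hA hB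
  have h2 := time_ev p E hE t Ln h0 h1 ht
  rw [Pj.map_sup, restL_sup] at h2
  rw [h2]

theorem plkr_of (hP : PLK1) : PLKr := by
  intro S b t cR XR cz Xz r ρ e e' hr0 hr1 hρ he hee' he'r htime huns hpos
  obtain ⟨V, rfl⟩ : ∃ V : S.Inf, cl V = b := by
    induction b using cl_ind
    exact ⟨_, rfl⟩
  -- the lines to depth `r`
  set L0 : S.L := dg cR r ⊔ dg XR r ⊔ dg cz r ⊔ dg Xz r with hL0
  have hLr : L0 ⊔ cl V ≤ dg cR 1 ⊔ dg XR 1 ⊔ dg cz 1 ⊔ dg Xz 1 ⊔ cl V :=
    sup_le_sup_right (sup_le_sup (sup_le_sup (sup_le_sup (dg_mono _ hr1) (dg_mono _ hr1)) (dg_mono _ hr1))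
      (dg_mono _ hr1)) _
  have htr : 1 ≤ h (dg t 1) (L0 ⊔ cl V) := htime.ge.trans (h_anti hLr)
  have hR : ∀ s : ℝ, s ≤ r → dg (cR + t * XR) s ≤ L0 ⊔ cl V ⊔ dg t r := by
    intro s hs
    refine (dg_mono _ hs).trans (dg_add_le' _ _ hr1 ?_ (dg_mul_le' _ _ hr1 le_sup_right ?_))
    · rw [hL0]; order
    · rw [hL0]; order
  have hz : ∀ s : ℝ, s ≤ r → dg (cz + t * Xz) s ≤ L0 ⊔ cl V ⊔ dg t r := by
    intro s hs
    refine (dg_mono _ hs).trans (dg_add_le' _ _ hr1 ?_ (dg_mul_le' _ _ hr1 le_sup_right ?_))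
    · rw [hL0]; order
    · rw [hL0]; order
  -- the zoom
  set q := qz V.1 r hr0 hr1 with hq
  have hqd : ∀ (f : QS S), dg (q f) 1 = chgL V.1 r hr0 (dg f r) := by
    intro f
    rw [hq, qz_dg V.1 r hr0 hr1 f le_rfl, mul_one]
  have hqe : ∀ (f : QS S) (s : ℝ), s ≤ r → dg (q f) (s / r) = chgL V.1 r hr0 (dg f s) := by
    intro f s hs
    rw [hq, qz_dg V.1 r hr0 hr1 f ((div_le_one hr0).mpr hs), mul_div_cancel₀ _ hr0.ne']
  have er : ∀ s : ℝ, s ≤ r → s ≤ 1 := fun s hs => hs.trans hr1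
  have ez : q cz + q t * q Xz = q (cz + t * Xz) := by rw [map_add, map_mul]
  have eR : q cR + q t * q XR = q (cR + t * XR) := by rw [map_add, map_mul]
  obtain ⟨W, p, E, hE, α, β0, β1, VV, k1, k2, k3, k4, k5, k6, k7, k8⟩ :=
    hP (S.chg V.1 r hr0) (q t) (q cR) (q XR) (q cz) (q Xz) ρ (e / r) (e' / r) hρ (div_pos he hr0)
      (div_lt_div_of_pos_right hee' hr0) ((div_lt_one hr0).mpr he'r) (by
        rw [hqd, hqd, hqd, hqd, hqd, ← chgL_sup, ← chgL_sup, ← chgL_sup, h_chgL_inf, div_eq_one_iff_eq hr0.ne',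
          ← hL0]
        apply le_antisymm ((h_le_H _ _).trans (H_dg_le t hr0.le))
        have h2 := h_chain (dg t r) (dg t 1) (L0 ⊔ cl V)
        rw [sup_eq_right.mpr (dg_mono t hr1)] at h2
        have h3 : h (dg t 1) (dg t r ⊔ (L0 ⊔ cl V)) ≤ 1 - r := (h_anti le_sup_left).trans (h_dg_dg t hr1)
        linarith)
      (by
        intro T p E hE v hv0 hv1
        have hv : v = r * v / r := by rw [mul_comm, mul_div_assoc, div_self hr0.ne', mul_one]
        have hrv : r * v ≤ r := by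
          calc r * v ≤ r * 1 := mul_le_mul_of_nonneg_left hv1 hr0.le
            _ = r := mul_one r
        have e1 : dg (q (cz + t * Xz)) v = chgL V.1 r hr0 (dg (cz + t * Xz) (r * v)) := by
          rw [hq, qz_dg V.1 r hr0 hr1 _ hv1]
        rw [ez, eR, hqd, hqd, hqd, e1, ← chgL_sup, ← chgL_sup, h_juz, div_le_iff₀ hr0]
        have u1 := huns (unz p) (puz p) (evz p E) (evz_pos p hE) (r * v) (mul_nonneg hr0.le hv0) hrv
        have u2 := indep_ev (puz p) (evz p E) (evz_pos p hE) t (L0 ⊔ cl V) hr0.le hr1 htr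
          (A := restL (evz p E) (evz_pos p hE) ((puz p).map (dg (cz + t * Xz) r)))
          (B := restL (evz p E) (evz_pos p hE)
            ((puz p).map (dg (cz + t * Xz) (r * v) ⊔ dg (cR + t * XR) r ⊔ cl V)))
          (restL_mono _ _ ((puz p).map_mono (hz r le_rfl)))
          (restL_mono _ _ ((puz p).map_mono (sup_le (sup_le (hz _ hrv) (hR _ le_rfl))
            (le_sup_right.trans le_sup_left))))
        rw [← restL_sup, ← restL_sup, ← Pj.map_sup, ← Pj.map_sup] at u2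
        have s1 : dg (cz + t * Xz) (r * v) ⊔ dg (cR + t * XR) r ⊔ dg t r ⊔ cl V =
            dg (cz + t * Xz) (r * v) ⊔ dg (cR + t * XR) r ⊔ cl V ⊔ dg t r := by
          apply le_antisymm <;> order
        have s2 : dg (cz + t * Xz) (r * v) ⊔ dg (cR + t * XR) r ⊔ dg t 1 ⊔ cl V =
            dg (cz + t * Xz) (r * v) ⊔ dg (cR + t * XR) r ⊔ cl V ⊔ dg t 1 := by
          apply le_antisymm <;> order
        rw [s1, u2, ← s2]
        refine u1.trans (le_of_eq ?_)
        ring)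
      (by
        rw [ez, eR, hqd, hqd, hqd, hqe _ _ (hee'.le.trans he'r.le), hqe _ _ (hee'.le.trans he'r.le),
          ← chgL_sup, ← chgL_sup, ← chgL_sup, h_chgL_inf]
        refine div_pos (lt_of_lt_of_le hpos (h_anti ?_)) hr0
        exact sup_le_sup_right (sup_le_sup_left (dg_mono t hr1) _) _)
  -- back to the space
  set j := juz p E with hj
  obtain ⟨α', hα'⟩ := qz_surj (bsz p E).1 r hr0 hr1 (j.qs α)
  obtain ⟨γ0, hγ0⟩ := qz_surj (bsz p E).1 r hr0 hr1 (j.qs β0)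
  obtain ⟨γ1, hγ1⟩ := qz_surj (bsz p E).1 r hr0 hr1 (j.qs β1)
  obtain ⟨V', hV', hbV⟩ := chgL_surj (bsz p E) r hr0 (j.map VV)
  have hE' := evz_pos p hE
  have jm : ∀ x : S.L, j.map (restL E hE (p.map (chgL V.1 r hr0 x))) =
      chgL (bsz p E).1 r hr0 (restL (evz p E) hE' ((puz p).map x)) := fun x => juz_map p hE x
  have cb : cl (bsz p E) = restL (evz p E) hE' ((puz p).map (cl V)) := cl_bsz p hE
  have low : ∀ x : S.L, VV ≤ restL E hE (p.map (chgL V.1 r hr0 x)) →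
      V' ≤ restL (evz p E) hE' ((puz p).map (x ⊔ cl V)) := by
    intro x hx
    have h1 := j.map_mono hx
    rw [jm, ← hV', chgL_le_inf, cb, ← restL_sup, ← Pj.map_sup] at h1
    exact h1
  have dgα : ∀ (f : QS (W.rest E)) (g : QS ((unz p).rest (evz p E))), qz (bsz p E).1 r hr0 hr1 g = j.qs f →
      dg f 1 ≤ VV → dg g r ≤ V' := by
    intro f g hg hf
    have h1 := j.map_mono hf
    rw [← j.qs_dg, ← hg, qz_dg _ _ _ _ _ le_rfl, mul_one, ← hV', chgL_le_inf, sup_eq_left.mpr hbV] at h1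
    exact h1
  have hV1 : V' ≤ restL (evz p E) hE' ((puz p).map (L0 ⊔ cl V)) := by
    apply low
    rw [hqd, hqd, hqd, hqd, ← chgL_sup, ← chgL_sup, ← chgL_sup] at k1
    exact k1
  have hV2 : V' ≤ restL (evz p E) hE' ((puz p).map (dg (cR + t * XR) r ⊔ dg (cz + t * Xz) r ⊔ dg t r ⊔ cl V)) := by
    apply low
    rw [ez, eR, hqd, hqd, hqd, ← chgL_sup, ← chgL_sup] at k2
    exact k2
  have jq : ∀ f : QS S, j.qs (QS.rest E hE (p.qs (q f))) =
      qz (bsz p E).1 r hr0 hr1 (QS.rest (evz p E) hE' ((puz p).qs f)) := fun f => juz_qz p hE hr1 f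
  refine ⟨unz p, puz p, evz p E, hE', α', γ0, γ1, V', hV1, ?_, dgα _ _ hα' k3, dgα _ _ hγ0 k4, dgα _ _ hγ1 k5,
    ?_, ?_, ?_⟩
  · refine hV2.trans (restL_mono _ _ ((puz p).map_mono ?_))
    exact sup_le_sup_right (sup_le_sup_left (dg_mono t hr1) _) _
  · have e1 : qz (bsz p E).1 r hr0 hr1 (γ0 + γ1 * QS.rest (evz p E) hE' ((puz p).qs t) +
        α' * QS.rest (evz p E) hE' ((puz p).qs (cR + t * XR))) =
        j.qs β0 + j.qs β1 * j.qs (QS.rest E hE (p.qs (q t))) +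
          j.qs α * j.qs (QS.rest E hE (p.qs (q (cR + t * XR)))) := by
      rw [map_add, map_add, map_mul, map_mul, hα', hγ0, hγ1, jq, jq]
    rw [← qz_eq_zero (bsz p E).1 r hr0 hr1, map_sub, e1, ← jq, ← ez, k6, ← eR, map_add, map_add, map_mul, map_mul,
      sub_self]
  · rw [eR, hqd, hqe _ _ he'r.le, hqd, ← chgL_sup, ← j.h_map, Pj.map_sup, jm, jm, ← hV', ← chgL_sup, h_chgL_inf,
      le_div_iff₀ hr0] at k7
    have u2 := indep_ev (puz p) (evz p E) hE' t (L0 ⊔ cl V) hr0.le hr1 htr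
      (A := restL (evz p E) hE' ((puz p).map (dg (cR + t * XR) r)))
      (B := V' ⊔ restL (evz p E) hE' ((puz p).map (dg (cR + t * XR) e' ⊔ cl V)))
      (restL_mono _ _ ((puz p).map_mono (hR r le_rfl)))
      (sup_le (hV1.trans (restL_mono _ _ ((puz p).map_mono le_sup_left)))
        (restL_mono _ _ ((puz p).map_mono (sup_le (hR _ he'r.le) (le_sup_right.trans le_sup_left)))))
    have s1 : V' ⊔ restL (evz p E) hE' ((puz p).map (dg (cR + t * XR) e' ⊔ dg t r)) ⊔ cl (bsz p E) =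
        V' ⊔ restL (evz p E) hE' ((puz p).map (dg (cR + t * XR) e' ⊔ cl V)) ⊔
          restL (evz p E) hE' ((puz p).map (dg t r)) := by
      rw [cb, Pj.map_sup, Pj.map_sup, restL_sup, restL_sup]
      apply le_antisymm <;> order
    have s2 : V' ⊔ restL (evz p E) hE' ((puz p).map (dg (cR + t * XR) e' ⊔ dg t 1 ⊔ cl V)) =
        V' ⊔ restL (evz p E) hE' ((puz p).map (dg (cR + t * XR) e' ⊔ cl V)) ⊔
          restL (evz p E) hE' ((puz p).map (dg t 1)) := by
      rw [Pj.map_sup, Pj.map_sup, Pj.map_sup, restL_sup, restL_sup, restL_sup]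
      apply le_antisymm <;> order
    rw [s1, u2, ← s2] at k7
    refine le_trans (le_of_eq ?_) k7
    rw [sub_mul, div_mul_cancel₀ _ hr0.ne', one_mul]
  · intro D s τ
    have k9 := k8 _ ((pz s (bsz p E) r hr0).comp j) (qz (s.mapI (bsz p E)).1 r hr0 hr1 τ)
    have cq : ∀ f : QS (W.rest E), ((pz s (bsz p E) r hr0).comp j).qs f = (pz s (bsz p E) r hr0).qs (j.qs f) := by
      intro f
      obtain ⟨f, rfl⟩ := QS.mk_surj f
      rfl
    have d1 : ∀ f : QS S, ((pz s (bsz p E) r hr0).comp j).qs (QS.rest E hE (p.qs (q f))) =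
        qz (s.mapI (bsz p E)).1 r hr0 hr1 (s.qs (QS.rest (evz p E) hE' ((puz p).qs f))) := by
      intro f
      rw [cq, jq, pz_qz]
    have d2 : ((pz s (bsz p E) r hr0).comp j).map VV = chgL (s.mapI (bsz p E)).1 r hr0 (s.map V') := by
      rw [Pj.comp_map, ← hV', pz_map]
    have cb' : cl (s.mapI (bsz p E)) = s.map (restL (evz p E) hE' ((puz p).map (cl V))) := by
      rw [← cb]
      rfl
    rw [d1, d1, ← map_mul, ← map_add, qz_dg _ _ _ _ _ ((div_le_one hr0).mpr he'r.le), qz_dg _ _ _ _ _ le_rfl,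
      mul_one, mul_div_cancel₀ _ hr0.ne', d2, ← chgL_sup, h_chgL_inf, cb'] at k9
    rw [eR, hqe _ _ he'r.le, hqd, ← j.h_map, Pj.map_sup, jm, jm, ← hV', ← chgL_sup, h_chgL_inf, cb,
      div_le_div_iff_of_pos_right hr0] at k9
    have u2 := indep_ev (puz p) (evz p E) hE' t (L0 ⊔ cl V) hr0.le hr1 htr
      (A := restL (evz p E) hE' ((puz p).map (dg (cR + t * XR) e')))
      (B := V' ⊔ restL (evz p E) hE' ((puz p).map (cl V)))
      (restL_mono _ _ ((puz p).map_mono (hR _ he'r.le)))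
      (sup_le (hV1.trans (restL_mono _ _ ((puz p).map_mono le_sup_left)))
        (restL_mono _ _ ((puz p).map_mono (le_sup_right.trans le_sup_left))))
    have s1 : V' ⊔ restL (evz p E) hE' ((puz p).map (dg t r)) ⊔ restL (evz p E) hE' ((puz p).map (cl V)) =
        V' ⊔ restL (evz p E) hE' ((puz p).map (cl V)) ⊔ restL (evz p E) hE' ((puz p).map (dg t r)) := by
      apply le_antisymm <;> order
    have s2 : V' ⊔ restL (evz p E) hE' ((puz p).map (dg t 1 ⊔ cl V)) =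
        V' ⊔ restL (evz p E) hE' ((puz p).map (cl V)) ⊔ restL (evz p E) hE' ((puz p).map (dg t 1)) := by
      rw [Pj.map_sup, restL_sup]
      apply le_antisymm <;> order
    rw [s1, u2, ← s2] at k9
    refine le_trans (h_anti ?_) k9
    exact sup_le_sup_right (sup_le_sup_left (dg_mono τ hr1) _) _

end

end Pool.Agent.Helper8.PLK
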