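import Pool.Agent.Helper54.NB.Vw
import Pool.Agent.Helper54.NB.Str
import Pool.Agent.Helper62.UR.Lc
import Pool.Agent.Helper8.PLK.Exh

/-! Literal functions of views come from the space; exhaustion by events; rounding of agreement functions. -/

set_option autoImplicit false

namespace Pool.Agent.Helper8.PLK

open Finset Filter Topology Pool.Agent.Helper69.RK Pool.Agent.Helper31.EC Pool.Agent.Helper82.TP
  Pool.Agent.Helper46.LIN Pool.Agent.Helper54.NB

noncomputable section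

open Sp QS

variable {S : Sp}

/-! ### literal functions descend -/

theorem sub_desc (v : Vw S) {K : ℕ → ℝ} (hK : v.D.Sub K) : S.Sub K := by
  refine ⟨hK.1, ?_⟩
  have h1 : (fun k => Real.logb 2 (K k + 2) / (v.D.F k).n) = fun k => Real.logb 2 (K k + 2) / (S.F k).n := by
    funext k
    show Real.logb 2 (K k + 2) / (v.W.F k).n = _
    rw [v.p.hn k]
  rw [← h1]
  exact hK.2

theorem lit_desc (v : Vw S) {α : ℕ → Type} {V : ∀ k, (S.F k).Ω → α k} {g : QS v.D}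
    (hg : Lit (S := v.D) (fun k ω => V k (v.p.π k ω)) g) : ∃ f : QS S, Lit V f ∧ v.uq f = g := by
  classical
  obtain ⟨G, rfl, hG⟩ := hg
  obtain ⟨B, hB, hGB⟩ := G.2
  -- the value of the class
  let P : ∀ k, (S.F k).Ω → (v.D.F k).Ω → Prop := fun k s ω => (v.D.F k).μ ω ≠ 0 ∧ (S.F k).Z (v.p.π k ω) s ∧
    V k (v.p.π k ω) = V k s
  let f0 : ∀ k, (S.F k).Ω → ℝ := fun k s => if h : ∃ ω, P k s ω then TR.ev G k h.choose else 0
  have hf0 : ∀ k s, (∀ ω, (v.D.F k).μ ω ≠ 0 → |G.1 k ω| ≤ B k) → 0 ≤ B k → |f0 k s| ≤ B k := by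
    intro k s hk h0
    by_cases h : ∃ ω, P k s ω
    · have e : f0 k s = TR.ev G k h.choose := dif_pos h
      rw [e]
      exact hk _ h.choose_spec.1
    · have e : f0 k s = 0 := dif_neg h
      rw [e, abs_zero]
      exact h0
  let f : TR S := ⟨f0, B, sub_desc v hB, by
    filter_upwards [hGB, hB.1] with k hk h0 s _
    exact hf0 k s hk h0⟩
  -- two elements of one class
  have hcl : ∀ᶠ k in UF, ∀ s s' ω ω', P k s ω → P k s' ω' → (S.F k).Z s s' → V k s = V k s' →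
      TR.ev G k ω = TR.ev G k ω' := by
    filter_upwards [hG] with k hk s s' ω ω' h h' hZ hV
    apply hk ω ω' h.1 h'.1
    · have h1 := (v.W.F k).rest_supp (v.E k) ω h.1
      have h2 := (v.W.F k).rest_supp (v.E k) ω' h'.1
      refine (v.p.hZ k ω ω' h1.1 h2.1).mpr ?_
      exact (S.F k).Z.trans h.2.1 ((S.F k).Z.trans hZ ((S.F k).Z.symm h'.2.1))
    · exact h.2.2.trans (hV.trans h'.2.2.symm)
  have hPc : ∀ k s s', (S.F k).Z s s' → V k s = V k s' → (∃ ω, P k s ω) → ∃ ω, P k s' ω := by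
    rintro k s s' hZ hV ⟨ω, h1, h2, h3⟩
    exact ⟨ω, h1, (S.F k).Z.trans h2 hZ, h3.trans hV⟩
  refine ⟨mk f, ⟨f, rfl, ?_⟩, ?_⟩
  · filter_upwards [hcl] with k hk s s' _ _ hZ hV
    show f0 k s = f0 k s'
    by_cases h : ∃ ω, P k s ω
    · have h' := hPc k s s' hZ hV h
      have e : f0 k s = TR.ev G k h.choose := dif_pos h
      have e' : f0 k s' = TR.ev G k h'.choose := dif_pos h'
      rw [e, e']
      exact hk s s' _ _ h.choose_spec h'.choose_spec hZ hV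
    · have h' : ¬ ∃ ω, P k s' ω := fun hc => h (hPc k s' s ((S.F k).Z.symm hZ) hV.symm hc)
      have e : f0 k s = 0 := dif_neg h
      have e' : f0 k s' = 0 := dif_neg h'
      rw [e, e']
  · show QS.rest v.E v.hE (v.p.qs (mk f)) = mk G
    rw [Pj.qs_mk, QS.rest_mk, mk_eq]
    apply TR.Te.ag
    refine ⟨fun _ _ => True, Typ_true, ?_⟩
    filter_upwards [hcl] with k hk ω hω _
    have h : ∃ ω', P k (v.p.π k ω) ω' := ⟨ω, hω, (S.F k).Z.refl _, rfl⟩
    have e : f0 k (v.p.π k ω) = TR.ev G k h.choose := dif_pos h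
    show f0 k (v.p.π k ω) = TR.ev G k ω
    rw [e]
    exact hk _ _ _ _ h.choose_spec ⟨hω, (S.F k).Z.refl _, rfl⟩ ((S.F k).Z.refl _) rfl

/-! ### exhaustion -/

/-- if every event of positive probability contains one on which `A ≤ B`, then `A ≤ B` -/
theorem exhaust (A B : S.L) (h0 : ∀ (E : ∀ k, (S.F k).Ω → Prop) (hE : 0 < ul (S.pr E)),
    ∃ (E' : ∀ k, ((S.rest E).F k).Ω → Prop) (hE' : 0 < ul ((S.rest E).pr E')),
      restL E' hE' (restL E hE A) ≤ restL E' hE' (restL E hE B)) : A ≤ B := by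
  rw [← h_le_zero_iff]
  by_contra hc
  push Not at hc
  induction A using Sp.cl_ind with | _ a
  induction B using Sp.cl_ind with | _ b
  set κ := h (cl a) (cl b) with hκ
  have hul : ul (S.rt a.1 b.1) = κ := (h_cl a b).symm
  have ht : Tendsto (S.rt a.1 b.1) UF (𝓝 κ) := by
    rw [← hul]
    exact ul_tendsto (UB_rt a b.1)
  let f : ∀ k, (S.F k).Ω → Quotient (a.1 k) := fun k => Quotient.mk (a.1 k)
  let g : ∀ k, (S.F k).Ω → Quotient (b.1 k ⊓ (S.F k).Z) := fun k => Quotient.mk (b.1 k ⊓ (S.F k).Z)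
  have hrt : ∀ k, S.rt a.1 b.1 k = CH (S.F k).μ (f k) (g k) / (S.F k).n := fun _ => rfl
  obtain ⟨C0, hC0⟩ := a.2
  set C := max C0 1 with hC
  have hCpos : 0 < C := lt_of_lt_of_le one_pos (le_max_right _ _)
  set E : ∀ k, (S.F k).Ω → Prop := fun k ω => κ / 2 * (S.F k).n ≤ den (S.F k).μ (f k) (g k) ω with hE
  have hκ8 : 0 < κ / 8 := by linarith
  have hn2 := S.div_n_tendsto 2
  have hp : ∀ᶠ k in UF, κ / 8 / C ≤ S.pr E k := by
    filter_upwards [hC0, ht.eventually (lt_mem_nhds (show 3 * κ / 4 < κ by linarith)),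
      hn2.eventually (gt_mem_nhds hκ8)] with k h1 h2 h3
    have hn := (S.F k).pos
    have hN : (1 : ℝ) ≤ 2 ^ (C * (S.F k).n) :=
      Real.one_le_rpow (by norm_num) (mul_nonneg hCpos.le hn.le)
    have h4 := part_le (S.F k) (E k) (f k) (g k) (2 ^ (C * (S.F k).n)) hN (fun ω hω => by
      have h5 : nvf (S.F k).μ (f k) (g k) ω ≤ nv (S.F k) (a.1 k) ω := by
        apply nvf_le_of_rel
        intro ω' _ e
        have e1 : (b.1 k ⊓ (S.F k).Z) ω' ω := Quotient.exact e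
        exact Quotient.sound e1.2
      have h6 : ((nvf (S.F k).μ (f k) (g k) ω : ℕ) : ℝ) ≤ nv (S.F k) (a.1 k) ω := by exact_mod_cast h5
      refine h6.trans ((h1 ω hω).trans ?_)
      apply Real.rpow_le_rpow_of_exponent_le (by norm_num)
      exact mul_le_mul_of_nonneg_right (le_max_left _ _) hn.le)
    rw [Real.logb_rpow (by norm_num) (by norm_num)] at h4
    -- the complement
    have h5 : ∑ ω, res (S.F k).μ (fun ω => ¬ E k ω) ω * den (S.F k).μ (f k) (g k) ω ≤ κ / 2 * (S.F k).n := by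
      have h6 : ∀ ω, res (S.F k).μ (fun ω => ¬ E k ω) ω * den (S.F k).μ (f k) (g k) ω ≤
          (S.F k).μ ω * (κ / 2 * (S.F k).n) := by
        intro ω
        by_cases h7 : E k ω
        · rw [res_neg _ _ _ (fun h => h h7), zero_mul]
          exact mul_nonneg ((S.F k).nn ω) (by positivity)
        · rw [res_pos _ (fun ω => ¬ E k ω) _ h7]
          exact mul_le_mul_of_nonneg_left (not_le.mp h7).le ((S.F k).nn ω)
      refine (Finset.sum_le_sum fun ω _ => h6 ω).trans ?_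
      rw [← Finset.sum_mul]
      have h8 : ∑ ω, (S.F k).μ ω = 1 := (S.F k).ms
      rw [h8, one_mul]
    have h6 : CH (S.F k).μ (f k) (g k) = ∑ ω, res (S.F k).μ (E k) ω * den (S.F k).μ (f k) (g k) ω +
        ∑ ω, res (S.F k).μ (fun ω => ¬ E k ω) ω * den (S.F k).μ (f k) (g k) ω := by
      rw [← Finset.sum_add_distrib]
      apply Finset.sum_congr rfl
      intro ω _
      by_cases h7 : E k ω
      · rw [res_pos _ _ _ h7, res_neg _ _ _ (fun h => h h7), zero_mul, add_zero]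
        rfl
      · rw [res_neg _ _ _ h7, res_pos _ (fun ω => ¬ E k ω) _ h7, zero_mul, zero_add]
        rfl
    have h7 : 3 * κ / 4 * (S.F k).n < CH (S.F k).μ (f k) (g k) := by
      rw [hrt, lt_div_iff₀ hn] at h2
      exact h2
    have h8 : 2 < κ / 8 * (S.F k).n := by
      rwa [div_lt_iff₀ hn] at h3
    rw [div_le_iff₀ hCpos]
    have h9 : (S.F k).pb (E k) * (C * (S.F k).n) = S.pr E k * C * (S.F k).n := by
      show S.pr E k * (C * (S.F k).n) = _
      ring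
    have h10 : κ / 8 * (S.F k).n ≤ S.pr E k * C * (S.F k).n := by
      rw [← h9]
      linarith
    exact le_of_mul_le_mul_right h10 hn
  have hE0 : 0 < ul (S.pr E) := lt_of_lt_of_le (by positivity) (const_le_ul (UB_pr E) hp)
  obtain ⟨E', hE', hle⟩ := h0 E hE0
  have h1 := h_zero hle
  rw [rr_h E E' hE0 hE'] at h1
  have hpos := rr_pos E E' hE0 hE'
  have h2 : h (restL (EE E E') hpos (cl a)) (restL (EE E E') hpos (cl b)) = ul ((S.rest (EE E E')).rt a.1 b.1) :=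
    h_cl (restI (EE E E') a) (restI (EE E E') b)
  rw [h2] at h1
  set p1 := ul (S.pr (EE E E')) with hp1
  have ht1 : Tendsto (fun k => κ / 2 + Real.logb 2 (p1 / 2) / (S.F k).n) UF (𝓝 (κ / 2 + 0)) :=
    (S.div_n_tendsto (Real.logb 2 (p1 / 2))).const_add _
  have h3 : κ / 2 + 0 ≤ ul ((S.rest (EE E E')).rt a.1 b.1) := by
    refine le_of_tendsto_of_tendsto ht1 (ul_tendsto (UB_rt (restI (EE E E') a) b.1)) ?_
    have h4 : 0 < p1 / 2 := half_pos hpos
    filter_upwards [(ul_tendsto (UB_pr (EE E E'))).eventually (lt_mem_nhds (half_lt_self hpos))] with k h5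
    have hn := (S.F k).pos
    have h6 : (S.rest (EE E E')).rt a.1 b.1 k = CH ((S.F k).restμ (EE E E' k)) (f k) (g k) / (S.F k).n := rfl
    have h7 : p1 / 2 < (S.F k).pb (EE E E' k) := h5
    have h8 := rest_ge (S.F k) (EE E E' k) (f k) (g k) (h4.trans h7) (κ / 2 * (S.F k).n) (fun ω _ e => e.1)
    have h9 := Real.logb_le_logb_of_le (b := 2) (by norm_num) h4 h7.le
    show κ / 2 + Real.logb 2 (p1 / 2) / (S.F k).n ≤ (S.rest (EE E E')).rt a.1 b.1 k
    rw [h6, le_div_iff₀ hn, add_mul, div_mul_cancel₀ _ hn.ne']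
    linarith
  linarith

/-! ### rounding of agreement functions -/

theorem floor_near (t θ : ℝ) (h0 : 0 ≤ θ) (h1 : θ ≤ 1) : |(⌊t + θ⌋ : ℝ) - t| ≤ 1 := by
  have h2 := Int.floor_le (t + θ)
  have h3 := Int.lt_floor_add_one (t + θ)
  rw [abs_le]
  constructor <;> linarith

/-- one of the two offsets works -/
theorem floor_two {x y : ℝ} (h : |x - y| < 1 / 4) : ⌊x + 0⌋ = ⌊y + 0⌋ ∨ ⌊x + 1 / 2⌋ = ⌊y + 1 / 2⌋ := by
  rw [add_zero, add_zero]
  by_contra hc
  push Not at hc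
  obtain ⟨h1, h2⟩ := hc
  rw [abs_lt] at h
  -- distinct floors of close numbers
  have key : ∀ a b : ℝ, a - b < 1 / 4 → b - a < 1 / 4 → ⌊a⌋ ≠ ⌊b⌋ → ∃ m : ℤ, |a - m| < 1 / 4 ∧ |b - m| < 1 / 4 := by
    intro a b h3 h4 h5
    rcases lt_or_gt_of_ne h5 with h6 | h6
    · refine ⟨⌊b⌋, ?_, ?_⟩
      · have h7 : (⌊a⌋ : ℝ) + 1 ≤ ⌊b⌋ := by exact_mod_cast h6
        have h8 := Int.lt_floor_add_one a
        have h9 := Int.floor_le b
        rw [abs_lt]
        constructor <;> linarith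
      · have h7 : (⌊a⌋ : ℝ) + 1 ≤ ⌊b⌋ := by exact_mod_cast h6
        have h8 := Int.lt_floor_add_one a
        have h9 := Int.floor_le b
        rw [abs_lt]
        constructor <;> linarith
    · refine ⟨⌊a⌋, ?_, ?_⟩
      · have h7 : (⌊b⌋ : ℝ) + 1 ≤ ⌊a⌋ := by exact_mod_cast h6
        have h8 := Int.lt_floor_add_one b
        have h9 := Int.floor_le a
        rw [abs_lt]
        constructor <;> linarith
      · have h7 : (⌊b⌋ : ℝ) + 1 ≤ ⌊a⌋ := by exact_mod_cast h6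
        have h8 := Int.lt_floor_add_one b
        have h9 := Int.floor_le a
        rw [abs_lt]
        constructor <;> linarith
  obtain ⟨m, m1, m2⟩ := key x y (by linarith) (by linarith) h1
  obtain ⟨l, l1, l2⟩ := key (x + 1 / 2) (y + 1 / 2) (by linarith) (by linarith) h2
  rw [abs_lt] at m1 m2 l1 l2
  have e1 : (l : ℝ) - m < 1 := by linarith
  have e2 : 0 < (l : ℝ) - m := by linarith
  rcases lt_or_ge l m with h3 | h3
  · have : (l : ℝ) + 1 ≤ m := by exact_mod_cast h3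
    linarith
  · rcases h3.lt_or_eq with h4 | h4
    · -- l = m + 1: everything is an equality
      have h5 : (m : ℝ) + 1 ≤ l := by exact_mod_cast h4
      linarith
    · have h5 : (m : ℝ) = l := by exact_mod_cast h4
      linarith

/-- rounding to the grid of step `dl d` with an offset -/
def rnd (d θ : ℝ) (hd : 0 ≤ d) (h0 : 0 ≤ θ) (h1 : θ ≤ 1) (G : TR S) : TR S :=
  ⟨fun k ω => S.dl d k * ⌊TR.ev G k ω / S.dl d k + θ⌋, by
    obtain ⟨K, hK, h⟩ := G.2
    refine ⟨fun k => K k + 1, hK.add (S.Sub_const zero_le_one), ?_⟩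
    filter_upwards [h] with k hk ω hω
    have h2 := floor_near (TR.ev G k ω / S.dl d k) θ h0 h1
    have hp := S.dl_pos d k
    have h3 : S.dl d k * ⌊TR.ev G k ω / S.dl d k + θ⌋ =
        S.dl d k * (⌊TR.ev G k ω / S.dl d k + θ⌋ - TR.ev G k ω / S.dl d k) + TR.ev G k ω := by
      field_simp
      ring
    have h4 : S.dl d k ≤ 1 := by
      rw [← S.dl_zero k]
      exact S.dl_anti hd k
    rw [h3]
    refine (abs_add_le _ _).trans ?_
    rw [abs_mul, abs_of_pos hp, add_comm (K k)]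
    refine add_le_add ?_ (hk ω hω)
    calc S.dl d k * _ ≤ 1 * 1 := mul_le_mul h4 h2 (abs_nonneg _) zero_le_one
      _ = 1 := one_mul 1⟩

theorem rnd_ev (d θ : ℝ) (hd : 0 ≤ d) (h0 : 0 ≤ θ) (h1 : θ ≤ 1) (G : TR S) (k : ℕ) (ω : (S.F k).Ω) :
    TR.ev (rnd d θ hd h0 h1 G) k ω = S.dl d k * ⌊TR.ev G k ω / S.dl d k + θ⌋ := rfl

theorem rnd_mem (d θ : ℝ) (hd : 0 ≤ d) (h0 : 0 ≤ θ) (h1 : θ ≤ 1) (G : TR S) :
    mk (rnd d θ hd h0 h1 G) - mk G ∈ Id S d := by
  rw [← map_sub, mk_mem_Id']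
  refine TR.Ag.anti (r := d) ⟨fun _ _ => True, fun _ => 1, Typ_true, S.Sub_const zero_le_one, ?_⟩ (min_le_left _ _)
  refine Eventually.of_forall fun k ω _ _ => ?_
  rw [TR.ev_sub, TR.ev_zero, sub_zero, rnd_ev, one_mul]
  have h2 := floor_near (TR.ev G k ω / S.dl d k) θ h0 h1
  have hp := S.dl_pos d k
  have h3 : S.dl d k * ⌊TR.ev G k ω / S.dl d k + θ⌋ - TR.ev G k ω =
      S.dl d k * (⌊TR.ev G k ω / S.dl d k + θ⌋ - TR.ev G k ω / S.dl d k) := by
    field_simp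
  rw [h3, abs_mul, abs_of_pos hp]
  calc S.dl d k * _ ≤ S.dl d k * 1 := mul_le_mul_of_nonneg_left h2 hp.le
    _ = _ := mul_one _

theorem round_vw (v : Vw S) {α β : ℕ → Type} {VA : ∀ k, (S.F k).Ω → α k} {VB : ∀ k, (S.F k).Ω → β k} {gA gB : QS S}
    (hA : Lit VA gA) (hB : Lit VB gB) {δ δ' : ℝ} (h1 : δ ≤ 1) (h' : δ' < δ) (h0 : v.uq (gA - gB) ∈ Id v.D δ) :
    ∃ (fA fB : QS S) (E1 : ∀ k, (S.F k).Ω → Prop), Lit VA fA ∧ Lit VB fB ∧ fA - gA ∈ Id S δ' ∧ fB - gB ∈ Id S δ' ∧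
      (∀ hE1 : 0 < ul (S.pr E1), QS.rest E1 hE1 fA = QS.rest E1 hE1 fB) ∧
      0 < ul (v.D.pr (fun k ω => E1 k (v.p.π k ω))) := by
  rcases le_or_gt δ 0 with hδ | hδ
  · refine ⟨0, 0, fun _ _ => True, ⟨0, map_zero _, Eventually.of_forall fun _ _ _ _ _ _ _ => rfl⟩,
      ⟨0, map_zero _, Eventually.of_forall fun _ _ _ _ _ _ _ => rfl⟩, mem_Id_nonpos (by linarith),
      mem_Id_nonpos (by linarith), fun _ => rfl, ?_⟩
    have h2 : Typ (S := v.D) (fun _ _ => True) := Typ_true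
    rw [ul_pr_typ _ h2]
    exact one_pos
  -- the level of the grid
  set d := max δ' 0 with hd
  have hd0 : 0 ≤ d := le_max_right _ _
  have hdδ : d < δ := max_lt h' hδ
  have hd' : δ' ≤ d := le_max_left _ _
  obtain ⟨GA, rfl, hGA⟩ := hA
  obtain ⟨GB, rfl, hGB⟩ := hB
  have lit : ∀ {γ : ℕ → Type} {V : ∀ k, (S.F k).Ω → γ k} (G : TR S) (θ : ℝ) (t0 : 0 ≤ θ) (t1 : θ ≤ 1),
      (∀ᶠ k in UF, ∀ ω ω', (S.F k).μ ω ≠ 0 → (S.F k).μ ω' ≠ 0 → (S.F k).Z ω ω' →
        V k ω = V k ω' → TR.ev G k ω = TR.ev G k ω') → Lit V (mk (rnd d θ hd0 t0 t1 G)) := by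
    intro γ V G θ t0 t1 h
    refine ⟨_, rfl, ?_⟩
    filter_upwards [h] with k hk ω ω' a b c e
    rw [rnd_ev, rnd_ev, hk ω ω' a b c e]
  have fin : ∀ (θ : ℝ) (t0 : 0 ≤ θ) (t1 : θ ≤ 1),
      0 < ul (v.D.pr (fun k ω => TR.ev (rnd d θ hd0 t0 t1 GA) k (v.p.π k ω) =
        TR.ev (rnd d θ hd0 t0 t1 GB) k (v.p.π k ω))) →
      ∃ (fA fB : QS S) (E1 : ∀ k, (S.F k).Ω → Prop), Lit VA fA ∧ Lit VB fB ∧ fA - mk GA ∈ Id S δ' ∧
        fB - mk GB ∈ Id S δ' ∧ (∀ hE1 : 0 < ul (S.pr E1), QS.rest E1 hE1 fA = QS.rest E1 hE1 fB) ∧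
        0 < ul (v.D.pr (fun k ω => E1 k (v.p.π k ω))) := by
    intro θ t0 t1 h2
    refine ⟨mk (rnd d θ hd0 t0 t1 GA), mk (rnd d θ hd0 t0 t1 GB),
      fun k ω => TR.ev (rnd d θ hd0 t0 t1 GA) k ω = TR.ev (rnd d θ hd0 t0 t1 GB) k ω, lit GA θ t0 t1 hGA,
      lit GB θ t0 t1 hGB, Id_anti hd' (rnd_mem d θ hd0 t0 t1 GA), Id_anti hd' (rnd_mem d θ hd0 t0 t1 GB), ?_, h2⟩
    intro hE1
    rw [QS.rest_mk, QS.rest_mk, mk_eq]
    apply TR.Te.ag
    refine ⟨fun _ _ => True, Typ_true, ?_⟩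
    filter_upwards [Pool.Agent.Helper25.EC.rest_mem _ hE1] with k hk ω hω _
    exact (hk ω hω).2
  -- the two offsets
  have h2 : mk (TR.rest v.E (v.p.tr (GA - GB))) ∈ Id v.D δ := h0
  rw [mk_mem_Id h1] at h2
  obtain ⟨A, K, hA, hK, hh⟩ := h2
  have hK8 : v.D.Sub (fun k => 8 * K k) := (v.D.Sub_const (by norm_num : (0 : ℝ) ≤ 8)).mul hK
  have hdl : ∀ r k, v.D.dl r k = S.dl r k := by
    intro r k
    show (2 : ℝ) ^ (-(r * (v.W.F k).n)) = _
    rw [v.p.hn k]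
    rfl
  have key : ∀ᶠ k in UF, ∀ ω, (v.D.F k).μ ω ≠ 0 → A k ω →
      TR.ev (rnd d 0 hd0 le_rfl zero_le_one GA) k (v.p.π k ω) =
        TR.ev (rnd d 0 hd0 le_rfl zero_le_one GB) k (v.p.π k ω) ∨
      TR.ev (rnd d (1 / 2) hd0 (by norm_num) (by norm_num) GA) k (v.p.π k ω) =
        TR.ev (rnd d (1 / 2) hd0 (by norm_num) (by norm_num) GB) k (v.p.π k ω) := by
    filter_upwards [hh, hK8.eventually_le (sub_pos.mpr hdδ), hK.1] with k hk h8 hK0 ω a b
    have h3 := hk ω a b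
    have h4 : |TR.ev GA k (v.p.π k ω) - TR.ev GB k (v.p.π k ω)| ≤ K k * v.D.dl δ k := by
      have h5 : TR.ev (TR.rest v.E (v.p.tr (GA - GB))) k ω - TR.ev (0 : TR v.D) k ω =
          TR.ev GA k (v.p.π k ω) - TR.ev GB k (v.p.π k ω) := sub_zero _
      rw [← h5]
      exact h3
    have hp := S.dl_pos d k
    have h6 : 8 * (K k * v.D.dl δ k) < S.dl d k := by
      rw [hdl, show δ = (δ - d) + d by ring, S.dl_add, ← mul_assoc, ← mul_assoc]
      have h7 : 8 * K k * S.dl (δ - d) k < 1 := by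
        have h9 : (2 : ℝ) ^ ((δ - d) * (v.D.F k).n) * S.dl (δ - d) k = 1 := by
          rw [← hdl]
          unfold dl
          rw [← Real.rpow_add (by norm_num : (0 : ℝ) < 2), add_neg_cancel, Real.rpow_zero]
        rw [← h9]
        apply mul_lt_mul_of_pos_right _ (S.dl_pos _ k)
        linarith
      calc 8 * K k * S.dl (δ - d) k * S.dl d k < 1 * S.dl d k := mul_lt_mul_of_pos_right h7 hp
        _ = _ := one_mul _
    have h7 : |TR.ev GA k (v.p.π k ω) / S.dl d k - TR.ev GB k (v.p.π k ω) / S.dl d k| < 1 / 4 := by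
      rw [← sub_div, abs_div, abs_of_pos hp, div_lt_iff₀ hp]
      linarith
    rcases floor_two h7 with h8 | h8
    · left
      rw [rnd_ev, rnd_ev, h8]
    · right
      rw [rnd_ev, rnd_ev, h8]
  set P0 : ∀ k, (v.D.F k).Ω → Prop := fun k ω => TR.ev (rnd d 0 hd0 le_rfl zero_le_one GA) k (v.p.π k ω) =
        TR.ev (rnd d 0 hd0 le_rfl zero_le_one GB) k (v.p.π k ω) with hP0
  set P1 : ∀ k, (v.D.F k).Ω → Prop := fun k ω =>
      TR.ev (rnd d (1 / 2) hd0 (by norm_num) (by norm_num) GA) k (v.p.π k ω) =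
        TR.ev (rnd d (1 / 2) hd0 (by norm_num) (by norm_num) GB) k (v.p.π k ω) with hP1
  rcases typ_or (S := v.D) (fun k ω => ¬ P0 k ω) with ht | ht
  · -- then the other one is typical
    have h3 : Typ (S := v.D) P1 := (ht.and hA).mono (by
      filter_upwards [key] with k hk ω hω h4
      exact (hk ω hω h4.2).resolve_left h4.1)
    refine fin (1 / 2) (by norm_num) (by norm_num) ?_
    rw [ul_pr_typ _ h3]
    exact one_pos
  · refine fin 0 le_rfl zero_le_one ?_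
    have h3 : (fun k ω => ¬ ¬ P0 k ω) = P0 := by
      funext k ω
      exact propext not_not
    rw [h3] at ht
    exact ht

end

end Pool.Agent.Helper8.PLK
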